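import Pool.Agent.P.MP_10b087_nt.Seq

set_option autoImplicit false

namespace Pool.Agent.P.MP_10b087_nt

namespace Seq

variable {l0 r : ℕ} {N F V W : ℕ → ℕ} (h : Seq l0 r N F V W)
include h

theorem N_mono {i : ℕ} (hi : l0 ≤ i) (j : ℕ) (hj : i + j ≤ r) : N i ≤ N (i + j) := by
  induction j with
  | zero => simp
  | succ j ih =>
    have := h.step (i + j) (by omega) (by omega)
    have := ih (by omega)
    rw [← add_assoc]; omega

theorem N_le {i k : ℕ} (hi : l0 ≤ i) (hik : i ≤ k) (hk : k ≤ r) : N i ≤ N k := by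
  have := h.N_mono hi (k - i) (by omega)
  rwa [Nat.add_sub_cancel' hik] at this

theorem N_ge {k : ℕ} (hi : l0 ≤ k) (hk : k ≤ r) : 2 ^ l0 ≤ N k := by
  rw [← h.N0]; exact h.N_le le_rfl hi hk

theorem N_pos {k : ℕ} (hi : l0 ≤ k) (hk : k ≤ r) : 0 < N k :=
  lt_of_lt_of_le (by positivity) (h.N_ge hi hk)

theorem F_chain {i : ℕ} (hi : l0 ≤ i) (j : ℕ) (hj : i + j < r) :
    F (i + j + 1) ≤ 2 ^ j * F (i + 1) := by
  induction j with
  | zero => simp
  | succ j ih =>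
    have h1 := h.b2 (i + j + 1) (by omega) (by omega)
    have h2 := ih (by omega)
    have h3 : 1 ≤ 2 ^ W (i + j + 1) := Nat.one_le_two_pow
    have h4 : F (i + j + 1 + 1) ≤ 2 * F (i + j + 1) := by
      apply Nat.le_of_mul_le_mul_left _ h3
      nlinarith
    rw [← add_assoc, pow_succ, mul_right_comm]; omega

theorem F_le {i k : ℕ} (hi : l0 ≤ i) (hik : i ≤ k) (hk : k < r) :
    F (k + 1) ≤ 2 ^ (k - i) * F (i + 1) := by
  have := h.F_chain hi (k - i) (by omega)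
  rwa [Nat.add_sub_cancel' hik] at this

theorem N_growth {i : ℕ} (hi : l0 ≤ i) (j : ℕ) (hj : i + j ≤ r) :
    2 ^ j * N (i + j) ≤ 3 ^ j * N i := by
  induction j with
  | zero => simp
  | succ j ih =>
    have h1 := h.step (i + j) (by omega) (by omega)
    have h2 := h.b0 (i + j) (by omega) (by omega)
    have h3 := ih (by omega)
    have h4 : 2 * N (i + j + 1) ≤ 3 * N (i + j) := by omega
    rw [← add_assoc, pow_succ, pow_succ]
    calc 2 ^ j * 2 * N (i + j + 1) = 2 ^ j * (2 * N (i + j + 1)) := by ring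
      _ ≤ 2 ^ j * (3 * N (i + j)) := by gcongr
      _ = 3 * (2 ^ j * N (i + j)) := by ring
      _ ≤ 3 * (3 ^ j * N i) := by gcongr
      _ = _ := by ring

theorem W_lt {i a X : ℕ} (hi : l0 ≤ i) (hr : i < r) (hN : N i < X) (hF : X ≤ 2 ^ a * F (i + 1)) :
    W i < a := by
  have h1 := h.b1 i hi hr
  have h2 : 2 ^ W i * F (i + 1) < 2 ^ a * F (i + 1) := by omega
  exact (Nat.pow_lt_pow_iff_right (by norm_num : 1 < 2)).1 (Nat.lt_of_mul_lt_mul_right h2)

theorem V_sum {i B : ℕ} (hi : l0 ≤ i) (j : ℕ) (hj : i + j ≤ r)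
    (hW : ∀ k, i ≤ k → k < i + j → W k ≤ B) : V i ≤ V (i + j) + j * B := by
  induction j with
  | zero => simp
  | succ j ih =>
    have h1 := h.vs (i + j) (by omega) (by omega)
    have h2 := ih (by omega) (fun k h1 h2 => hW k h1 (by omega))
    have h3 := hW (i + j) (by omega) (by omega)
    rw [← add_assoc, add_mul]; omega

theorem gap {i b e : ℕ} (hi : l0 ≤ i) (hr : i < r) (hN : N i < 2 ^ b) (he : b + e = i + 1) :
    2 ^ b ≤ 2 ^ (2 ^ e) * (2 ^ b - N i) :=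
  (h.good i hi hr).gap (h.N_pos hi hr.le) (by omega) (by omega) he

theorem gap_chain {i X : ℕ} (hi : l0 ≤ i) (j : ℕ) (hj : i + j ≤ r)
    (hd : ∀ k, i ≤ k → k < i + j → N k + 2 * F (k + 1) < X) :
    X - N i ≤ 2 ^ j * (X - N (i + j)) := by
  induction j with
  | zero => simp
  | succ j ih =>
    have h1 := h.step (i + j) (by omega) (by omega)
    have h2 := ih (by omega) (fun k h1 h2 => hd k h1 (by omega))
    have h3 := hd (i + j) (by omega) (by omega)
    have h4 : X - N (i + j) ≤ 2 * (X - N (i + j + 1)) := by omega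
    rw [← add_assoc, pow_succ, mul_assoc]
    exact le_trans h2 (Nat.mul_le_mul_left _ h4)

theorem o_bound {lam s i : ℕ} (hs : 1 ≤ s) (hi : i + 1 = lam + s) (hr : i < r)
    (hN : 2 ^ lam ≤ 2 * N i) : lam ≤ l0 + 2 * s := by
  by_contra hc
  obtain ⟨x, hx⟩ : ∃ x, lam = l0 + 2 * s + 1 + x := ⟨lam - (l0 + 2 * s + 1), by omega⟩
  have h1 := h.N_growth le_rfl (3 * s + x) (by omega)
  have e : l0 + (3 * s + x) = i := by omega
  rw [e, h.N0] at h1
  have h2 : 27 ^ s < 32 ^ s := Nat.pow_lt_pow_left (by norm_num) (by omega)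
  have h3 : 3 ^ x ≤ 4 ^ x := Nat.pow_le_pow_left (by norm_num) x
  have h4 : 27 ^ s * 3 ^ x < 32 ^ s * 4 ^ x := Nat.mul_lt_mul_of_lt_of_le h2 h3 (by positivity)
  have e1 : 3 ^ (3 * s + x) = 27 ^ s * 3 ^ x := by rw [pow_add, pow_mul]; norm_num
  have e2 : 2 ^ (3 * s + x) * 2 ^ lam = 32 ^ s * 4 ^ x * (2 * 2 ^ l0) := by
    rw [hx, show (32 : ℕ) = 2 ^ 5 by norm_num, show (4 : ℕ) = 2 ^ 2 by norm_num, ← pow_mul, ← pow_mul,
      ← pow_succ', ← pow_add, ← pow_add, ← pow_add]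
    congr 1; ring
  have h5 : 2 ^ (3 * s + x) * 2 ^ lam ≤ 27 ^ s * 3 ^ x * (2 * 2 ^ l0) := by
    calc 2 ^ (3 * s + x) * 2 ^ lam ≤ 2 ^ (3 * s + x) * (2 * N i) := by gcongr
      _ = 2 * (2 ^ (3 * s + x) * N i) := by ring
      _ ≤ 2 * (3 ^ (3 * s + x) * 2 ^ l0) := by gcongr
      _ = _ := by rw [e1]; ring
  rw [e2] at h5
  have := Nat.le_of_mul_le_mul_right h5 (by positivity)
  omega

theorem V_tri {a i X : ℕ} (hr : i < r) (hN : N i < X)
    (hF : X ≤ 2 ^ (a + 1) * F (i + 1)) (j : ℕ) : ∀ k, k + j = i + 1 → l0 ≤ k →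
    2 * V k + j ≤ 2 * V (i + 1) + j * (2 * a + j) := by
  induction j with
  | zero => intro k hk _; simp at hk; subst hk; simp
  | succ j ih =>
    intro k hk hl
    have h1 := ih (k + 1) (by omega) (by omega)
    have h2 := h.vs k hl (by omega)
    have h3 := h.F_le hl (by omega : k ≤ i) hr
    have e : i - k = j := by omega
    rw [e] at h3
    have h4 : W k < a + 1 + j := by
      apply h.W_lt hl (by omega) (lt_of_le_of_lt (h.N_le hl (by omega : k ≤ i) hr.le) hN)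
      rw [pow_add, mul_assoc]
      exact le_trans hF (Nat.mul_le_mul_left _ h3)
    nlinarith

end Seq

theorem poly_le (s : ℕ) (hs : 10 ≤ s) : 15 * s * s + 13 * s ≤ 2 * 2 ^ s := by
  induction s, hs using Nat.le_induction with
  | base => norm_num
  | succ s hs ih => rw [pow_succ]; nlinarith

theorem Seq.crude {l0 r : ℕ} {N F V W : ℕ → ℕ} (h : Seq l0 r N F V W) {lam s i : ℕ}
    (hs : 10 ≤ s) (hi : i + 1 = lam + s) (hl : l0 ≤ lam) (hr : i < r) (hN : N i < 2 ^ lam)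
    (hN2 : 2 ^ lam ≤ 2 * N i) (hF : 2 ^ lam ≤ 2 ^ (s + 3) * F (i + 1)) :
    lam ≤ V (i + 1) + 2 ^ s := by
  have h1 := h.o_bound (by omega) hi hr hN2
  have h2 := h.V_tri (a := s + 2) hr hN hF (i + 1 - l0) l0 (by omega) le_rfl
  have h3 := h.V0
  have h4 := poly_le s hs
  obtain ⟨j, hj⟩ : ∃ j, j = i + 1 - l0 := ⟨_, rfl⟩
  rw [← hj] at h2
  have h5 : j ≤ 3 * s := by omega
  have h6 : j * (2 * (s + 2) + j) ≤ j + 3 * s * (5 * s + 3) := by nlinarith
  nlinarith

end Pool.Agent.P.MP_10b087_nt
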