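import Pool.Agent.P.MP_10b087_nt.Seq

set_option autoImplicit false

namespace Pool.Agent.P.MP_10b087_nt

def force (x : ℕ) (k : ℕ → Bool) : Bool :=
  Nat.rec (motive := fun _ => Bool) (k 0) (fun m _ => k (Nat.succ m)) x

theorem force_eq (x : ℕ) (k : ℕ → Bool) : force x k = k x := by
  cases x <;> rfl

def allB (n : ℕ) (p : ℕ → Bool) : Bool :=
  Nat.rec (motive := fun _ => Bool) true (fun i r => p i && r) n

theorem allB_spec {n : ℕ} {p : ℕ → Bool} (h : allB n p = true) : ∀ i, i < n → p i = true := by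
  induction n with
  | zero => intro i hi; omega
  | succ n ih =>
    intro i hi
    have h' : (p n && allB n p) = true := h
    rw [Bool.and_eq_true] at h'
    by_cases e : i = n
    · subst e; exact h'.1
    · exact ih h'.2 i (by omega)

def anyB (n : ℕ) (p : ℕ → Bool) : Bool :=
  Nat.rec (motive := fun _ => Bool) false (fun i r => p i || r) n

theorem anyB_spec {n : ℕ} {p : ℕ → Bool} (h : anyB n p = true) : ∃ i, p i = true := by
  induction n with
  | zero => exact absurd h (by simp [anyB])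
  | succ n ih =>
    have h' : (p n || anyB n p) = true := h
    rw [Bool.or_eq_true] at h'
    rcases h' with h' | h'
    · exact ⟨n, h'⟩
    · exact ih h'

def mn (a b : ℕ) : ℕ := cond (Nat.ble a b) a b

theorem mn_cases (a b : ℕ) : mn a b = a ∨ mn a b = b := by
  unfold mn; cases Nat.ble a b <;> simp

def cdiv (a w : ℕ) : ℕ := (a + 2 ^ w - 1) / 2 ^ w

theorem le_cdiv (a w : ℕ) : a ≤ 2 ^ w * cdiv a w := by
  unfold cdiv
  have h0 : 0 < 2 ^ w := by positivity
  have h1 := Nat.div_add_mod (a + 2 ^ w - 1) (2 ^ w)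
  have h2 := Nat.mod_lt (a + 2 ^ w - 1) h0
  omega

def getN (x i : ℕ) : ℕ := (x >>> (100 * i)) % 1125899906842624

def getF (x i : ℕ) : ℕ := (x >>> (100 * i + 50)) % 1125899906842624

def fl (a p w : ℕ) : ℕ := mn (mn (cdiv a 1) (cdiv a w)) (p + cdiv p w)

def capv (k e : ℕ) : ℕ := 2 ^ (48 - k) - 2 ^ (48 - k) / 2 ^ (2 ^ e)

def hit (B S nxt L a f : ℕ) : Bool :=
  anyB B (fun j => force (L * B + j) (fun i =>
    Nat.blt i S && Nat.ble a (getN nxt i) && Nat.ble f (getF nxt i)))

def stepOK (B S thr rem cp cur nxt : ℕ) : Bool :=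
  allB S (fun i => force (getN cur i) (fun a => Nat.beq a 0 || force (getF cur i) (fun p =>
    allB thr (fun w => force (fl a p w) (fun f =>
      Nat.blt (f * 2 ^ thr) (2 ^ 48) || force (mn (a + f) cp) (fun a2 =>
        Nat.blt (a2 * 3 ^ rem * 2) (2 ^ 48 * 2 ^ rem) || hit B S nxt (i / B + w) a2 f))))))

def finOK (B S s cur : ℕ) : Bool :=
  allB S (fun i => force (getN cur i) (fun a => Nat.beq a 0 || force (getF cur i) (fun p =>
    allB (s + 3) (fun w => force (fl a p w) (fun f =>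
      (Nat.blt (a + 2 * f) (2 ^ 48) || Nat.blt s 2 || Nat.ble (i / B + w) (2 ^ (s + 1))) &&
      (Nat.blt ((a + f - 2 ^ 48) * 2 ^ (i / B + w)) ((2 ^ (2 ^ s) - 1) * 2 ^ 48) ||
        (Nat.beq s 2 && Nat.ble (i / B + w) 6 && Nat.ble (64 * a) (54 * 2 ^ 48))))))))

def check (B S s : ℕ) (tab : ℕ → ℕ) : Bool :=
  allB (3 * s - 1) (fun n => force (tab n) (fun cur => force (tab (n + 1)) (fun nxt =>
    (Nat.ble (2 * s) n || hit B S cur (2 * s - n) (2 ^ (48 - (2 * s - n))) (2 ^ (48 - (2 * s - n)))) &&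
    force (capv (2 * s - n - 2) (n + 2 - 2 * s)) (fun cp =>
      force (s + 3 + (3 * s - 1 - n)) (fun thr => force (3 * s - 2 - n) (fun rem =>
        stepOK B S thr rem cp cur nxt)))))) &&
  force (tab (3 * s - 1)) (fun cur => finOK B S s cur)

end Pool.Agent.P.MP_10b087_nt
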