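import Pool.Agent.P.MP_10b087_nt.Weight

set_option autoImplicit false

namespace Pool.Agent.P.MP_10b087_nt

/-- a straight line program: every positive vertex has two earlier parents -/
structure SLP where
  p : ℕ → Bool → ℕ
  lt : ∀ v b, 0 < v → p v b < v

namespace SLP

/-- number of paths from `u` to `v` -/
def c (G : SLP) (u : ℕ) (v : ℕ) : ℕ :=
  if v = u then 1 else if _h : v = 0 then 0 else c G u (G.p v true) + c G u (G.p v false)
termination_by v
decreasing_by all_goals exact G.lt _ _ (Nat.pos_of_ne_zero _h)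

variable (G : SLP)

theorem c_self (u : ℕ) : G.c u u = 1 := by rw [c]; simp

theorem c_zero {u : ℕ} (h : u ≠ 0) : G.c u 0 = 0 := by
  rw [c]; simp [h.symm]

theorem c_step {u v : ℕ} (h : v ≠ u) (h0 : 0 < v) :
    G.c u v = G.c u (G.p v true) + G.c u (G.p v false) := by
  rw [c]; simp [h, h0.ne']

theorem c_step' {u v : ℕ} (b : Bool) (h : v ≠ u) (h0 : 0 < v) :
    G.c u v = G.c u (G.p v b) + G.c u (G.p v (!b)) := by
  rw [G.c_step h h0]; cases b <;> simp [add_comm]

theorem c_of_lt {u v : ℕ} (h : v < u) : G.c u v = 0 := by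
  induction v using Nat.strong_induction_on with
  | _ v ih =>
    rcases Nat.eq_zero_or_pos v with h0 | h0
    · subst h0; exact G.c_zero (by omega)
    · have h1 := G.lt v true h0
      have h2 := G.lt v false h0
      rw [G.c_step (by omega) h0, ih _ h1 (by omega), ih _ h2 (by omega)]

theorem le_of_c_pos {u v : ℕ} (h : 0 < G.c u v) : u ≤ v := by
  by_contra h1
  rw [G.c_of_lt (by omega)] at h
  omega

theorem c_zero_pos (v : ℕ) : 0 < G.c 0 v := by
  induction v using Nat.strong_induction_on with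
  | _ v ih =>
    rcases Nat.eq_zero_or_pos v with h0 | h0
    · subst h0; rw [c_self]; omega
    · rw [G.c_step (by omega) h0]
      have := ih _ (G.lt v true h0)
      omega

theorem c_mul_le (u v z : ℕ) : G.c u v * G.c v z ≤ G.c u z := by
  induction z using Nat.strong_induction_on with
  | _ z ih =>
    by_cases hv : z = v
    · subst hv; rw [c_self]; simp
    · rcases Nat.eq_zero_or_pos z with h0 | h0
      · subst h0; rw [G.c_zero (u := v) (by omega)]; simp
      · by_cases hu : z = u
        · subst hu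
          rcases lt_or_gt_of_ne hv with h | h
          · rw [G.c_of_lt (u := v) h]; simp
          · rw [G.c_of_lt (u := z) h]; simp
        · rw [G.c_step hv h0, G.c_step hu h0, mul_add]
          exact add_le_add (ih _ (G.lt z true h0)) (ih _ (G.lt z false h0))

theorem c_pos_trans {u v z : ℕ} (h1 : 0 < G.c u v) (h2 : 0 < G.c v z) : 0 < G.c u z :=
  lt_of_lt_of_le (Nat.mul_pos h1 h2) (G.c_mul_le u v z)

theorem c_par_pos {v : ℕ} (b : Bool) (h0 : 0 < v) : 0 < G.c (G.p v b) v := by
  have := G.lt v b h0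
  rw [G.c_step' b (by omega) h0, c_self]; omega

theorem c_par_le {v : ℕ} (b : Bool) (h0 : 0 < v) (z : ℕ) : G.c v z ≤ G.c (G.p v b) z := by
  have h1 := G.c_mul_le (G.p v b) v z
  have h2 := G.c_par_pos b h0
  nlinarith

theorem exists_par {u v : ℕ} (h : 0 < G.c u v) (hne : v ≠ u) : ∃ b, 0 < G.c u (G.p v b) := by
  have h0 : 0 < v := by have := G.le_of_c_pos h; omega
  rw [G.c_step hne h0] at h
  by_cases h1 : 0 < G.c u (G.p v true)
  · exact ⟨true, h1⟩
  · exact ⟨false, by omega⟩

theorem exists_child {u v : ℕ} (h : 0 < G.c u v) (hne : v ≠ u) :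
    ∃ w b, 0 < w ∧ G.p w b = u ∧ 0 < G.c w v := by
  induction v using Nat.strong_induction_on with
  | _ v ih =>
    have h0 : 0 < v := by have := G.le_of_c_pos h; omega
    obtain ⟨b, hb⟩ := G.exists_par h hne
    by_cases h1 : G.p v b = u
    · exact ⟨v, b, h0, h1, by rw [c_self]; omega⟩
    · obtain ⟨w, b', hw, hw1, hw2⟩ := ih _ (G.lt v b h0) hb h1
      exact ⟨w, b', hw, hw1, G.c_pos_trans hw2 (G.c_par_pos b h0)⟩

/-- used non-source vertices -/
def U (t : ℕ) : Finset ℕ := (Finset.range (t + 1)).filter (fun v => 0 < v ∧ 0 < G.c v t)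

theorem mem_U {t v : ℕ} : v ∈ G.U t ↔ 0 < v ∧ 0 < G.c v t := by
  unfold U
  simp only [Finset.mem_filter, Finset.mem_range]
  constructor
  · exact fun h => h.2
  · intro h
    exact ⟨Nat.lt_succ_of_le (G.le_of_c_pos h.2), h⟩

/-- length -/
def len (t : ℕ) : ℕ := (G.U t).card

/-- redirect `m` to `x` -/
def phi (m x v : ℕ) : ℕ := if v = m then x else v

theorem phi_le {m x : ℕ} (h : x < m) (v : ℕ) : phi m x v ≤ v := by
  unfold phi; split_ifs <;> omega

theorem phi_ne {m x : ℕ} (h : x < m) (v : ℕ) : phi m x v ≠ m := by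
  unfold phi; split_ifs <;> omega

theorem phi_of_ne {m x v : ℕ} (h : v ≠ m) : phi m x v = v := by
  unfold phi; simp [h]

theorem phi_self (m x : ℕ) : phi m x m = x := by
  unfold phi; simp

/-- delete the edge number `b` into `m` -/
def con (m : ℕ) (b : Bool) (hm : 0 < m) : SLP where
  p v β := phi m (G.p m (!b)) (G.p v β)
  lt v β hv := lt_of_le_of_lt (phi_le (G.lt m (!b) hm) _) (G.lt v β hv)

theorem con_p (m : ℕ) (b : Bool) (hm : 0 < m) (v : ℕ) (β : Bool) :
    (G.con m b hm).p v β = phi m (G.p m (!b)) (G.p v β) := rfl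

theorem con_c {m : ℕ} (b : Bool) (hm : 0 < m) {u : ℕ} (hu : u ≠ m) (v : ℕ) :
    (G.con m b hm).c u (phi m (G.p m (!b)) v) + G.c u (G.p m b) * G.c m v = G.c u v := by
  have hx := G.lt m (!b) hm
  have hy := G.lt m b hm
  induction v using Nat.strong_induction_on with
  | _ v ih =>
    by_cases hv : v = m
    · subst hv
      have h1 := ih _ hx
      rw [phi_of_ne (by omega), G.c_of_lt hx] at h1
      rw [phi_self, c_self, G.c_step' b hu.symm hm]
      omega
    · rw [phi_of_ne hv]
      by_cases hvu : v = u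
      · subst hvu
        rw [c_self, c_self]
        rcases lt_or_gt_of_ne hv with h | h
        · rw [G.c_of_lt (u := m) h]; simp
        · rw [G.c_of_lt (u := v) (by omega)]; simp
      · rcases Nat.eq_zero_or_pos v with h0 | h0
        · subst h0
          rw [c_zero _ (by omega), G.c_zero (u := m) (by omega), G.c_zero (u := u) (by omega)]; simp
        · have h1 := ih _ (G.lt v true h0)
          have h2 := ih _ (G.lt v false h0)
          rw [c_step _ hvu h0, G.c_step hv h0, G.c_step hvu h0, con_p, con_p, mul_add]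
          omega

theorem con_c_m {m : ℕ} (b : Bool) (hm : 0 < m) (v : ℕ) (hv : v ≠ m) :
    (G.con m b hm).c m v = 0 := by
  have hx := G.lt m (!b) hm
  induction v using Nat.strong_induction_on with
  | _ v ih =>
    rcases Nat.eq_zero_or_pos v with h0 | h0
    · subst h0; exact c_zero _ (by omega)
    · rw [c_step _ hv h0, ih _ (SLP.lt _ v true h0) (phi_ne hx _),
        ih _ (SLP.lt _ v false h0) (phi_ne hx _)]

theorem con_c_low {m : ℕ} (b : Bool) (hm : 0 < m) {u v : ℕ} (hv : v < m) :
    (G.con m b hm).c u v = G.c u v := by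
  by_cases hu : u = m
  · subst hu; rw [c_of_lt _ hv, c_of_lt _ hv]
  · have := G.con_c b hm hu v
    rw [phi_of_ne (by omega), G.c_of_lt hv] at this
    omega

theorem con_U_sub {m : ℕ} (b : Bool) (hm : 0 < m) (t : ℕ) :
    (G.con m b hm).U (phi m (G.p m (!b)) t) ⊆ (G.U t).erase m := by
  intro u hu
  rw [mem_U] at hu
  have hx := G.lt m (!b) hm
  have hum : u ≠ m := by
    rintro rfl
    rw [G.con_c_m b hm _ (phi_ne hx _)] at hu
    omega
  rw [Finset.mem_erase, mem_U]
  have := G.con_c b hm hum t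
  exact ⟨hum, hu.1, by omega⟩

theorem con_len_lt {m t : ℕ} (b : Bool) (hm : 0 < m) (hU : m ∈ G.U t) :
    (G.con m b hm).len (phi m (G.p m (!b)) t) + 1 ≤ G.len t := by
  have h1 := Finset.card_le_card (G.con_U_sub b hm t)
  rw [Finset.card_erase_of_mem hU] at h1
  have h2 : 0 < (G.U t).card := Finset.card_pos.2 ⟨m, hU⟩
  unfold len
  omega

/-- number of source to sink paths through the edge number `b` into `m` -/
def flow (t m : ℕ) (b : Bool) : ℕ := G.c 0 (G.p m b) * G.c m t

theorem con_val {m : ℕ} (b : Bool) (hm : 0 < m) (t : ℕ) :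
    (G.con m b hm).c 0 (phi m (G.p m (!b)) t) + G.flow t m b = G.c 0 t :=
  G.con_c b hm (by omega) t

theorem flow_pos {t m : ℕ} (b : Bool) (hU : m ∈ G.U t) : 0 < G.flow t m b :=
  Nat.mul_pos (G.c_zero_pos _) (G.mem_U.1 hU).2

/-- all used edges respect the vertex `z` -/
def Cut (t z : ℕ) : Prop := ∀ v, z < v → 0 < G.c v t → ∀ β, z ≤ G.p v β

theorem Cut.c_eq {G : SLP} {t z : ℕ} (h : G.Cut t z) {u : ℕ} (hu : u ≤ z) (v : ℕ) (hv : z ≤ v)
    (hU : 0 < G.c v t) : G.c u v = G.c u z * G.c z v := by
  induction v using Nat.strong_induction_on with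
  | _ v ih =>
    by_cases hz : v = z
    · subst hz; rw [c_self]; simp
    · have h0 : 0 < v := by omega
      have h1 := ih _ (G.lt v true h0) (h v (by omega) hU true)
        (G.c_pos_trans (G.c_par_pos true h0) hU)
      have h2 := ih _ (G.lt v false h0) (h v (by omega) hU false)
        (G.c_pos_trans (G.c_par_pos false h0) hU)
      rw [G.c_step (u := u) (by omega) h0, G.c_step hz h0, h1, h2, mul_add]

/-- series doubling -/
def Ser (t z : ℕ) : Prop := G.p z true = G.p z false ∧ G.Cut t z

open Classical in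
/-- the set of series doublings -/
noncomputable def S (t : ℕ) : Finset ℕ := (G.U t).filter (fun z => G.Ser t z)

theorem mem_S {t z : ℕ} : z ∈ G.S t ↔ 0 < z ∧ 0 < G.c z t ∧ G.p z true = G.p z false ∧ G.Cut t z := by
  classical
  unfold S
  simp only [Finset.mem_filter, mem_U, Ser]
  tauto

theorem S_sub (t : ℕ) : G.S t ⊆ G.U t := by
  intro z hz
  rw [mem_S] at hz
  exact G.mem_U.2 ⟨hz.1, hz.2.1⟩

theorem S_par {t z : ℕ} (h : z ∈ G.S t) (b b' : Bool) : G.p z b = G.p z b' := by
  have := (G.mem_S.1 h).2.2.1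
  cases b <;> cases b' <;> simp [this]

theorem S_flow {t z : ℕ} (h : z ∈ G.S t) (b : Bool) : 2 * G.flow t z b = G.c 0 t := by
  obtain ⟨h0, h1, h2, h3⟩ := G.mem_S.1 h
  have h4 := h3.c_eq (u := 0) (by omega) t (G.le_of_c_pos h1) (by rw [c_self]; omega)
  rw [h4, G.c_step' b (by omega) h0, G.S_par h (!b) b]
  unfold flow; ring

/-- number of series doublings in the interval from `u` (excluded) to `v` -/
noncomputable def cnt (t u v : ℕ) : ℕ := ((G.S t).filter (fun z => u < z ∧ z ≤ v)).card

theorem two_pow_cnt_le {t u : ℕ} (v : ℕ) (hU : 0 < G.c v t) (h : 0 < G.c u v) :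
    2 ^ G.cnt t u v ≤ G.c u v := by
  induction v using Nat.strong_induction_on with
  | _ v ih =>
    by_cases hv : v = u
    · subst hv
      have : G.cnt t v v = 0 := by
        unfold cnt
        rw [Finset.card_eq_zero, Finset.filter_eq_empty_iff]
        intro z _; omega
      rw [this, c_self]; simp
    · have h0 : 0 < v := by have := G.le_of_c_pos h; omega
      obtain ⟨b, hb⟩ := G.exists_par h hv
      have h1 := ih _ (G.lt v b h0) (G.c_pos_trans (G.c_par_pos b h0) hU) hb
      have key : ∀ z, z ∈ (G.S t).filter (fun z => u < z ∧ z ≤ v) → z ≠ v →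
          z ∈ (G.S t).filter (fun z => u < z ∧ z ≤ G.p v b) := by
        intro z hz hzv
        rw [Finset.mem_filter] at hz ⊢
        exact ⟨hz.1, hz.2.1, (G.mem_S.1 hz.1).2.2.2 v (by omega) hU b⟩
      by_cases hS : v ∈ G.S t
      · have h2 : G.cnt t u v ≤ G.cnt t u (G.p v b) + 1 := by
          unfold cnt
          refine le_trans (Finset.card_le_card (t := insert v
            ((G.S t).filter (fun z => u < z ∧ z ≤ G.p v b))) ?_) (Finset.card_insert_le _ _)
          intro z hz
          rw [Finset.mem_insert]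
          by_cases hzv : z = v
          · exact Or.inl hzv
          · exact Or.inr (key z hz hzv)
        rw [G.c_step' b hv h0, G.S_par hS (!b) b]
        calc 2 ^ G.cnt t u v ≤ 2 ^ (G.cnt t u (G.p v b) + 1) := Nat.pow_le_pow_right (by norm_num) h2
          _ ≤ _ := by rw [pow_succ]; omega
      · have h2 : G.cnt t u v ≤ G.cnt t u (G.p v b) := by
          unfold cnt
          apply Finset.card_le_card
          intro z hz
          apply key z hz
          rintro rfl
          exact hS (Finset.mem_filter.1 hz).1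
        rw [G.c_step' b hv h0]
        calc 2 ^ G.cnt t u v ≤ 2 ^ (G.cnt t u (G.p v b)) := Nat.pow_le_pow_right (by norm_num) h2
          _ ≤ _ := by omega

theorem two_pow_S_le (t : ℕ) : 2 ^ (G.S t).card ≤ G.c 0 t := by
  have h := G.two_pow_cnt_le (t := t) (u := 0) t (by rw [c_self]; omega) (G.c_zero_pos t)
  have : G.cnt t 0 t = (G.S t).card := by
    unfold cnt
    congr 1
    apply Finset.filter_true_of_mem
    intro z hz
    obtain ⟨h0, h1, -⟩ := G.mem_S.1 hz
    exact ⟨h0, G.le_of_c_pos h1⟩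
  rwa [this] at h

/-- if some used vertex is not a series doubling, some edge carries at most a third -/
theorem exists_third {t : ℕ} (h : G.S t ≠ G.U t) :
    ∃ m b, m ∈ G.U t ∧ 3 * G.flow t m b ≤ G.c 0 t := by
  have hne : (G.U t \ G.S t).Nonempty := by
    rw [Finset.sdiff_nonempty]
    intro hsub
    exact h (Finset.Subset.antisymm (G.S_sub t) hsub)
  obtain ⟨z, hz, hmax⟩ := Finset.exists_max_image _ id hne
  rw [Finset.mem_sdiff] at hz
  obtain ⟨hzU, hzS⟩ := hz
  obtain ⟨hz0, hzt⟩ := G.mem_U.1 hzU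
  have hcut : G.Cut t z := by
    intro v hv hvt β
    have hvS : v ∈ G.S t := by
      by_contra hn
      have := hmax v (Finset.mem_sdiff.2 ⟨G.mem_U.2 ⟨by omega, hvt⟩, hn⟩)
      simp only [id] at this
      omega
    obtain ⟨hv0, -, -, hvc⟩ := G.mem_S.1 hvS
    have h4 := hvc.c_eq (u := z) (by omega) t (G.le_of_c_pos hvt) (by rw [c_self]; omega)
    have h5 : 0 < G.c z v := by
      rw [h4] at hzt
      exact Nat.pos_of_mul_pos_right hzt
    rw [G.c_step' β (by omega) hv0, G.S_par hvS (!β) β] at h5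
    exact G.le_of_c_pos (by omega)
  have hne2 : G.p z true ≠ G.p z false := fun e => hzS (G.mem_S.2 ⟨hz0, hzt, e, hcut⟩)
  obtain ⟨b, hb⟩ : ∃ b, G.p z b < G.p z (!b) := by
    rcases lt_or_gt_of_ne hne2 with h1 | h1
    · exact ⟨true, h1⟩
    · exact ⟨false, h1⟩
  set x := G.p z (!b) with hx
  have hx0 : 0 < x := by omega
  have hxz : x < z := G.lt z _ hz0
  have h1 : G.c x t = G.c z t := by
    rw [hcut.c_eq (u := x) hxz.le t (G.le_of_c_pos hzt) (by rw [c_self]; omega),
      G.c_step' b (by omega) hz0, G.c_of_lt hb, ← hx, c_self]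
    simp
  have hxU : x ∈ G.U t := G.mem_U.2 ⟨hx0, by omega⟩
  have h2 : G.c 0 t = G.flow t z b + G.flow t x true + G.flow t x false := by
    rw [hcut.c_eq (u := 0) (by omega) t (G.le_of_c_pos hzt) (by rw [c_self]; omega),
      G.c_step' b (by omega) hz0, ← hx, G.c_step (v := x) (by omega) hx0]
    unfold flow
    rw [h1]; ring
  by_cases c1 : 3 * G.flow t z b ≤ G.c 0 t
  · exact ⟨z, b, hzU, c1⟩
  · by_cases c2 : 3 * G.flow t x true ≤ G.c 0 t
    · exact ⟨x, true, hxU, c2⟩
    · exact ⟨x, false, hxU, by omega⟩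

end SLP

end Pool.Agent.P.MP_10b087_nt
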