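import Mathlib

/-! Addition chains in the classical form. -/

set_option autoImplicit false

namespace Pool.Agent.P.MP_10b087_nt

/-- `1 = a 0 < a 1 < ⋯ < a r = n`, and every `a i` with `1 ≤ i ≤ r` is a sum `a j + a k` of two
earlier terms, not necessarily different. -/
def IsAddChain (n r : ℕ) (a : ℕ → ℕ) : Prop :=
  a 0 = 1 ∧ a r = n ∧ (∀ i, i < r → a i < a (i + 1)) ∧
    ∀ i, 1 ≤ i → i ≤ r → ∃ j k, j < i ∧ k < i ∧ a i = a j + a k

/-- The least length of an addition chain for `n`. -/
noncomputable def chainLength (n : ℕ) : ℕ := sInf {r | ∃ a, IsAddChain n r a}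

/-- The number of digits equal to `1` in the binary expansion of `n`. -/
def binaryWeight (n : ℕ) : ℕ := (Nat.digits 2 n).count 1

end Pool.Agent.P.MP_10b087_nt
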