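import Pool.Agent.P.MP_10b087_nt.Main
import Pool.Agent.P.MP_10b087_nt.HDefs

/-! The lower bound in the classical form, and numbers of every weight attaining it. -/

set_option autoImplicit false

namespace Pool.Agent.P.MP_10b087_nt

theorem count_eq_sum (L : List ℕ) (h : ∀ d ∈ L, d < 2) : L.count 1 = L.sum := by
  induction L with
  | nil => rfl
  | cons d L ih =>
    have h1 := h d List.mem_cons_self
    rw [List.count_cons, List.sum_cons, ih fun e he => h e (List.mem_cons_of_mem _ he)]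
    interval_cases d <;> simp [add_comm]

theorem binaryWeight_eq (n : ℕ) : binaryWeight n = nu n :=
  count_eq_sum _ fun _ hd => Nat.digits_lt_base (by norm_num) hd

theorem exists_chain {n : ℕ} (hn : 1 ≤ n) : ∃ a, IsAddChain n (chainLength n) a := by
  refine Nat.sInf_mem (s := {r | ∃ a, IsAddChain n r a}) ⟨n - 1, fun i => i + 1, rfl, ?_, ?_, ?_⟩
  · show n - 1 + 1 = n
    omega
  · intro i _
    show i + 1 < i + 1 + 1
    omega
  · intro i hi _
    refine ⟨i - 1, 0, by omega, by omega, ?_⟩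
    show i + 1 = i - 1 + 1 + (0 + 1)
    omega

theorem lower {n r : ℕ} {a : ℕ → ℕ} (hn : 1 ≤ n) (h : IsAddChain n r a) :
    Nat.log 2 n + Nat.clog 2 (nu n) ≤ r := by
  have hg := chain_good r a h.1 h.2.2.2
  rw [h.2.1] at hg
  exact hg.final hn

theorem IsAddChain.pos {n r : ℕ} {a : ℕ → ℕ} (h : IsAddChain n r a) (j : ℕ) (hj : j ≤ r) :
    0 < a j := by
  induction j with
  | zero => rw [h.1]; exact one_pos
  | succ j ih => exact (ih (by omega)).trans (h.2.2.1 j (by omega))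

theorem IsAddChain.step {n r j : ℕ} {a : ℕ → ℕ} (h : IsAddChain n r a) (hj : j ≤ r) :
    ∃ b, IsAddChain (n + a j) (r + 1) b ∧ ∀ i, i ≤ r → b i = a i := by
  have up : ∀ i, i ≤ r → Function.update a (r + 1) (n + a j) i = a i :=
    fun i hi => Function.update_of_ne (by omega) _ _
  have hp := h.pos j hj
  obtain ⟨h0, hr, hm, hs⟩ := h
  refine ⟨_, ⟨by rw [up 0 (by omega), h0], Function.update_self .., fun i hi => ?_,
    fun i h1 hi => ?_⟩, up⟩
  · rcases Nat.lt_succ_iff_lt_or_eq.1 hi with e | rfl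
    · rw [up i e.le, up (i + 1) e]; exact hm i e
    · rw [up i le_rfl, Function.update_self, hr]; omega
  · rcases Nat.lt_or_eq_of_le hi with e | rfl
    · obtain ⟨p, q, hp, hq, e'⟩ := hs i h1 (by omega)
      exact ⟨p, q, hp, hq, by rw [up i (by omega), up p (by omega), up q (by omega), e']⟩
    · exact ⟨r, j, by omega, by omega, by rw [Function.update_self, up r le_rfl, up j hj, hr]⟩

theorem IsAddChain.dbl {x r : ℕ} {a : ℕ → ℕ} (h : IsAddChain x r a) (t : ℕ) :
    ∃ b, IsAddChain (2 ^ t * x) (r + t) b ∧ b r = x := by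
  induction t with
  | zero => exact ⟨a, by simpa using h, h.2.1⟩
  | succ t ih =>
    obtain ⟨b, hb, e⟩ := ih
    obtain ⟨c, hc, e'⟩ := hb.step le_rfl
    rw [hb.2.1] at hc
    refine ⟨c, ?_, by rw [e' r (by omega), e]⟩
    rwa [show 2 ^ (t + 1) * x = 2 ^ t * x + 2 ^ t * x by ring, ← add_assoc]

theorem IsAddChain.mul {x r : ℕ} {a : ℕ → ℕ} (h : IsAddChain x r a) (t : ℕ) :
    ∃ b, IsAddChain (2 ^ t * x + x) (r + t + 1) b := by
  obtain ⟨b, hb, e⟩ := h.dbl t
  obtain ⟨c, hc, -⟩ := hb.step (j := r) (by omega)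
  exact ⟨c, e ▸ hc⟩

theorem nu_block (t : ℕ) : ∀ u z : ℕ, z < 2 ^ t → nu (2 ^ t * u + z) = nu u + nu z := by
  induction t with
  | zero =>
    intro u z hz
    have : z = 0 := by omega
    simp [this, nu_zero]
  | succ t ih =>
    intro u z hz
    rw [pow_succ] at hz
    have e : 2 ^ (t + 1) * u = 2 * (2 ^ t * u) := by ring
    rw [nu_rec (2 ^ (t + 1) * u + z), nu_rec z, e,
      show (2 * (2 ^ t * u) + z) / 2 = 2 ^ t * u + z / 2 by omega, ih u (z / 2) (by omega)]
    omega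

theorem log_block {t u z : ℕ} (hu : 0 < u) (hz : z < 2 ^ t) :
    Nat.log 2 (2 ^ t * u + z) = t + Nat.log 2 u := by
  have h1 : 2 ^ Nat.log 2 u ≤ u := Nat.pow_log_le_self 2 (by omega)
  have h2 : u + 1 ≤ 2 ^ (Nat.log 2 u + 1) := Nat.lt_pow_succ_log_self (by norm_num) u
  have h3 := Nat.mul_le_mul_left (2 ^ t) h1
  have h4 := Nat.mul_le_mul_left (2 ^ t) h2
  refine Nat.log_eq_of_pow_le_of_lt_pow (by rw [pow_add]; omega) ?_
  rw [add_assoc, pow_add]
  rw [mul_add] at h4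
  omega

theorem attained (m : ℕ) : 1 ≤ m → ∃ x a, x % 4 = 1 ∧ nu x = m ∧
    IsAddChain x (Nat.log 2 x + Nat.clog 2 m) a := by
  induction m using Nat.strong_induction_on with
  | _ m ih =>
    intro hm
    rcases hm.eq_or_lt with rfl | h2
    · exact ⟨1, fun _ => 1, rfl, nu_one, rfl, rfl, fun i hi => by simp at hi,
        fun i h1 hi => by simp at hi; omega⟩
    obtain ⟨x, a, h4, hx, hc⟩ := ih ((m + 1) / 2) (by omega) (by omega)
    have cl : Nat.clog 2 m = Nat.clog 2 ((m + 1) / 2) + 1 := Nat.clog_of_two_le (by norm_num) h2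
    obtain ⟨L, hL⟩ : ∃ L, L = Nat.log 2 x := ⟨_, rfl⟩
    have l1 : 2 ^ L ≤ x := hL ▸ Nat.pow_log_le_self 2 (by omega)
    have l2 : x < 2 ^ (L + 1) := hL ▸ Nat.lt_pow_succ_log_self (by norm_num) x
    rw [← hL] at hc
    rcases Nat.even_or_odd' m with ⟨k, rfl | rfl⟩
    · obtain ⟨b, hb⟩ := hc.mul (L + 2)
      have hz : x < 2 ^ (L + 2) := by rw [pow_succ]; omega
      refine ⟨2 ^ (L + 2) * x + x, b, ?_, by rw [nu_block _ _ _ hz]; omega, ?_⟩
      · rw [show 2 ^ (L + 2) * x = 4 * (2 ^ L * x) by ring]; omega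
      · rw [log_block (by omega) hz, cl, ← hL]
        rwa [show L + 2 + L + (Nat.clog 2 ((2 * k + 1) / 2) + 1) =
          L + Nat.clog 2 ((2 * k + 1) / 2) + (L + 2) + 1 by ring]
    · obtain ⟨b, hb⟩ := hc.mul L
      have x1 : x ≠ 1 := fun e => by rw [e, nu_one] at hx; omega
      obtain ⟨K, rfl⟩ : ∃ K, L = K + 2 := by
        refine ⟨L - 2, ?_⟩
        by_contra hK
        have : 2 ^ (L + 1) ≤ 2 ^ 2 := Nat.pow_le_pow_right (by norm_num) (by omega)
        omega
      have p4 : 2 ^ (K + 2) = 4 * 2 ^ K := by ring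
      have p8 : 2 ^ (K + 2 + 1) = 8 * 2 ^ K := by ring
      obtain ⟨z, hz⟩ : ∃ z, x = 2 ^ (K + 2) * 1 + z := ⟨x - 2 ^ (K + 2), by omega⟩
      have z1 : z < 2 ^ (K + 2) := by omega
      have n1 : nu x = 1 + nu z := by rw [hz, nu_block _ _ _ z1, nu_one]
      have n2 : nu (x + 1) = nu x := by
        obtain ⟨q, hq⟩ : ∃ q, x = 2 * (2 * q) + 1 := ⟨x / 4, by omega⟩
        rw [hq, show 2 * (2 * q) + 1 + 1 = 2 * (2 * q + 1) by ring, nu_two_mul,
          nu_two_mul_add_one, nu_two_mul_add_one, nu_two_mul]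
      have e : 2 ^ (K + 2) * x + x = 2 ^ (K + 2) * (x + 1) + z := by rw [mul_add]; omega
      have lg : Nat.log 2 (x + 1) = K + 2 :=
        Nat.log_eq_of_pow_le_of_lt_pow (by omega) (by omega)
      refine ⟨2 ^ (K + 2) * x + x, b, ?_, by rw [e, nu_block _ _ _ z1]; omega, ?_⟩
      · rw [show 2 ^ (K + 2) * x = 4 * (2 ^ K * x) by ring]; omega
      · rw [show Nat.log 2 (2 ^ (K + 2) * x + x) = K + 2 + (K + 2) by
          rw [e, log_block (by omega) z1, lg], cl]
        rwa [show K + 2 + (K + 2) + (Nat.clog 2 ((2 * k + 1 + 1) / 2) + 1) =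
          K + 2 + Nat.clog 2 ((2 * k + 1 + 1) / 2) + (K + 2) + 1 by ring]

end Pool.Agent.P.MP_10b087_nt
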