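import Pool.Agent.P.MP_10b087_nt.Numeric

set_option autoImplicit false

namespace Pool.Agent.P.MP_10b087_nt

theorem nu_small (n : ℕ) (h1 : 64 ≤ n) (h2 : n ≤ 81) (h3 : n ≠ 79) : nu n ≤ 4 := by
  unfold nu
  interval_cases n <;> first | omega | norm_num

theorem not_good_small (l f : ℕ) (hl : l ≤ 5) (hf : f = 25 ∨ f = 26) : ¬ Good l f := by
  intro h
  have h1 := h.mono hl
  unfold Good nu at h1
  rcases hf with rfl | rfl
  · have : Nat.log 2 25 = 4 := by norm_num
    rw [this] at h1
    norm_num at h1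
  · have : Nat.log 2 26 = 4 := by norm_num
    rw [this] at h1
    norm_num at h1

theorem good_split {l l2 D n n1 f : ℕ} (h1 : Good l n1) (h2 : Good l2 f) (hl : l2 + D ≤ l)
    (hn : n = n1 + f) (hD : n1 ≤ 2 ^ D * f) (hf : 0 < f) (hlog : 2 ^ Nat.log 2 n ≤ n1) :
    Good (l + 1) n := by
  have h0 : 0 < n1 := lt_of_lt_of_le (by positivity) hlog
  have e : Nat.log 2 n1 = Nat.log 2 n := by
    apply le_antisymm (Nat.log_mono_right (by omega))
    exact Nat.le_log_of_pow_le (by norm_num) hlog
  have h3 : f < 2 ^ (Nat.log 2 f + 1) := Nat.lt_pow_succ_log_self (by norm_num) f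
  have h4 : 2 ^ Nat.log 2 n < 2 ^ (D + (Nat.log 2 f + 1)) := by
    rw [pow_add]
    exact lt_of_le_of_lt (le_trans hlog hD) (Nat.mul_lt_mul_of_pos_left h3 (by positivity))
  have h5 := (Nat.pow_lt_pow_iff_right (by norm_num : 1 < 2)).1 h4
  have h6 : 2 ^ Nat.log 2 n ≤ 2 ^ Nat.log 2 f * 2 ^ D := by
    rw [← pow_add]; exact Nat.pow_le_pow_right (by norm_num) (by omega)
  have h7 : 2 ^ l2 * 2 ^ D ≤ 2 ^ l := by
    rw [← pow_add]; exact Nat.pow_le_pow_right (by norm_num) hl
  have h8 := nu_add n1 f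
  rw [← hn] at h8
  unfold Good at *
  rw [e] at h1
  have h9 : nu f * 2 ^ Nat.log 2 n ≤ 2 ^ l := by
    calc nu f * 2 ^ Nat.log 2 n ≤ nu f * (2 ^ Nat.log 2 f * 2 ^ D) := by gcongr
      _ = nu f * 2 ^ Nat.log 2 f * 2 ^ D := by ring
      _ ≤ 2 ^ l2 * 2 ^ D := by gcongr
      _ ≤ _ := h7
  calc nu n * 2 ^ Nat.log 2 n ≤ (nu n1 + nu f) * 2 ^ Nat.log 2 n := by gcongr
    _ ≤ _ := by rw [add_mul, pow_succ]; omega

theorem main_good (l : ℕ) : ∀ (G : SLP) (t : ℕ), G.len t = l → Good l (G.c 0 t) := by
  induction l using Nat.strong_induction_on with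
  | _ l ih =>
    intro G t hl
    have hKS : ∀ (G' : SLP) (t' : ℕ), G'.len t' < l → Good (G'.len t') (G'.c 0 t') :=
      fun G' t' h => ih _ h G' t' rfl
    rcases (G.S t).eq_empty_or_nonempty with hS | ⟨z, hz⟩
    · obtain ⟨l0, N, F, V, W, hs, hN, hV, hF⟩ := SLP.exists_seq l G t hl hKS
      by_cases h0 : l0 = l
      · have := hs.N0
        rw [h0, hN] at this
        rw [this]; exact good_pow l
      obtain ⟨m, b, hU, -, hFl⟩ := hF.resolve_left h0
      have hle := hs.le
      obtain ⟨i, rfl⟩ : ∃ i, l = i + 1 := ⟨l - 1, by omega⟩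
      have hi0 : l0 ≤ i := by omega
      have st := hs.step i hi0 (by omega)
      have b0 := hs.b0 i hi0 (by omega)
      have hg := hs.good i hi0 (by omega)
      obtain ⟨G2, t2, D, e2, hl2, hD⟩ := G.split b hU
      have hg2 := hKS G2 t2 (by omega)
      have hfpos := G.flow_pos b hU
      rw [e2, ← hFl] at hg2
      rw [← hFl] at hD hfpos
      rw [← hN] at hD ⊢
      have hD' : N i ≤ 2 ^ D * F (i + 1) := by rw [add_mul] at hD; omega
      by_cases hlog : 2 ^ Nat.log 2 (N (i + 1)) ≤ N i
      · exact good_split hg hg2 (by omega) st hD' hfpos hlog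
      · have hlo : 2 ^ Nat.log 2 (N (i + 1)) ≤ N (i + 1) := Nat.pow_log_le_self 2 (by omega)
        obtain ⟨lam, hlam⟩ : ∃ lam, Nat.log 2 (N (i + 1)) = lam := ⟨_, rfl⟩
        rw [hlam] at hlog hlo
        obtain ⟨E, hE⟩ : ∃ E, N (i + 1) = 2 ^ lam + E := ⟨N (i + 1) - 2 ^ lam, by omega⟩
        obtain ⟨s, hs1, hs2⟩ := hs.top (lam := lam) (E := E) hi0 (by omega) (by omega)
          (by rw [hV, hS]; simp) (by omega)
        rcases hs2 with hs2 | ⟨rfl, h6, h54⟩
        · exact good_of_small hE hlam hs1 hs2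
        · by_cases h5 : lam ≤ 5
          · apply good_of_small hE hlam hs1
            have : 2 ^ lam ≤ 2 ^ 5 := Nat.pow_le_pow_right (by norm_num) h5
            norm_num
            omega
          · have e6 : lam = 6 := by omega
            subst e6
            norm_num at hlo h54 hlog hE
            by_cases h79 : N (i + 1) = 79
            · exfalso
              have hD2 : 2 ≤ D := by
                by_contra hc
                have : 2 ^ D ≤ 2 ^ 1 := Nat.pow_le_pow_right (by norm_num) (by omega)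
                have : 2 ^ D * F (i + 1) ≤ 2 ^ 1 * F (i + 1) := Nat.mul_le_mul_right _ this
                omega
              exact not_good_small _ _ (by omega) (by omega) hg2
            · have := nu_small (N (i + 1)) hlo (by omega) h79
              unfold Good
              have e8 : 2 ^ (i + 1) = 256 := by rw [hs1]; norm_num
              rw [hlam, e8]
              omega
    · have hU := G.S_sub t hz
      have hm := (G.mem_U.1 hU).1
      have h1 := G.con_len_lt true hm hU
      have h2 := G.con_val true hm t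
      have h3 := G.S_flow hz true
      have h4 := hKS (G.con z true hm) (SLP.phi z (G.p z (!true)) t) (by omega)
      have h5 := h4.double (SLP.c_zero_pos _ _)
      have e : G.c 0 t = 2 * (G.con z true hm).c 0 (SLP.phi z (G.p z (!true)) t) := by omega
      rw [e]
      exact h5.mono (by omega)

theorem chain_good (r : ℕ) (a : ℕ → ℕ) (h0 : a 0 = 1)
    (h : ∀ i : ℕ, 1 ≤ i → i ≤ r → ∃ j k : ℕ, j < i ∧ k < i ∧ a i = a j + a k) : Good r (a r) := by
  have h' : ∀ i : ℕ, ∃ j k : ℕ, (0 < i → j < i ∧ k < i) ∧ (0 < i → i ≤ r → a i = a j + a k) := by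
    intro i
    by_cases hi : 1 ≤ i ∧ i ≤ r
    · obtain ⟨j, k, h1, h2, h3⟩ := h i hi.1 hi.2
      exact ⟨j, k, fun _ => ⟨h1, h2⟩, fun _ _ => h3⟩
    · exact ⟨0, 0, fun h => ⟨h, h⟩, fun h1 h2 => absurd ⟨h1, h2⟩ hi⟩
  choose j k hjk hsum using h'
  let G : SLP := ⟨fun v b => cond b (j v) (k v), fun v b hv => by
    cases b
    · exact (hjk v hv).2
    · exact (hjk v hv).1⟩
  have hval : ∀ v, v ≤ r → G.c 0 v = a v := by
    intro v
    induction v using Nat.strong_induction_on with
    | _ v ih =>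
      intro hv
      rcases Nat.eq_zero_or_pos v with e | e
      · subst e; rw [SLP.c_self, h0]
      · have l1 := G.lt v true e
        have l2 := G.lt v false e
        rw [G.c_step (by omega) e, ih _ l1 (by omega), ih _ l2 (by omega), hsum v e hv]
        rfl
  have hlen : G.len r ≤ r := by
    unfold SLP.len
    have : G.U r ⊆ Finset.Icc 1 r := by
      intro v hv
      rw [SLP.mem_U] at hv
      have := G.le_of_c_pos hv.2
      rw [Finset.mem_Icc]; omega
    simpa using Finset.card_le_card this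
  have := main_good _ G r rfl
  rw [hval r le_rfl] at this
  exact this.mono hlen

end Pool.Agent.P.MP_10b087_nt
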