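import Pool.Agent.P.MP_10b087_nt.Sound
import Pool.Agent.P.MP_10b087_nt.Cert

set_option autoImplicit false

namespace Pool.Agent.P.MP_10b087_nt

theorem block_le (M j : ℕ) (hM : 8 ≤ M) : M + (j + 1) * (M + 2 * j) ≤ 2 ^ (j + 1) * M := by
  rcases Nat.eq_zero_or_pos j with h | h
  · subst h; omega
  have key : ∀ j, 1 ≤ j → 8 * (j + 2) + 2 * j * (j + 1) ≤ 8 * 2 ^ (j + 1) := by
    intro j hj
    induction j, hj using Nat.le_induction with
    | base => norm_num
    | succ j hj ih => rw [pow_succ 2 (j + 1)]; nlinarith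
  have h1 := key j h
  obtain ⟨c, hc⟩ : ∃ c, 2 ^ (j + 1) = j + 2 + c := ⟨2 ^ (j + 1) - (j + 2), by omega⟩
  rw [hc] at h1 ⊢
  have h2 : 8 * c ≤ c * M := by nlinarith
  nlinarith

theorem block_le2 (M j : ℕ) (hM : 8 ≤ M) (hj : j ≠ 1) : M + j * (M + 2 * j) ≤ 2 ^ j * M := by
  rcases Nat.eq_zero_or_pos j with h | h
  · subst h; omega
  have key : ∀ j, 2 ≤ j → 8 * (j + 1) + 2 * j * j ≤ 8 * 2 ^ j := by
    intro j hj
    induction j, hj using Nat.le_induction with
    | base => norm_num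
    | succ j hj ih => rw [pow_succ 2 j]; nlinarith
  have h1 := key j (by omega)
  obtain ⟨c, hc⟩ : ∃ c, 2 ^ j = j + 1 + c := ⟨2 ^ j - (j + 1), by omega⟩
  rw [hc] at h1 ⊢
  have h2 : 8 * c ≤ c * M := by nlinarith
  nlinarith

namespace Seq

variable {l0 r : ℕ} {N F V W : ℕ → ℕ} (h : Seq l0 r N F V W)
include h

theorem top_of_L {lam s i E : ℕ} (hi : i + 1 = lam + s) (hl : l0 ≤ i) (hr : i < r)
    (hN : N i < 2 ^ lam) (hL : lam ≤ W i + 2 ^ s) (hE : N i + F (i + 1) = 2 ^ lam + E) :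
    E + 1 < 2 ^ (2 ^ s) := by
  have h1 := h.gap hl hr hN hi.symm
  have h2 := h.b1 i hl hr
  have h3 : 2 ^ lam ≤ 2 ^ W i * 2 ^ (2 ^ s) := by
    rw [← pow_add]; exact Nat.pow_le_pow_right (by norm_num) hL
  have h4 : 1 ≤ 2 ^ W i := Nat.one_le_two_pow
  have hX : 0 < 2 ^ lam := by positivity
  obtain ⟨g, hg⟩ : ∃ g, 2 ^ lam = N i + g := ⟨2 ^ lam - N i, by omega⟩
  have e1 : 2 ^ lam - N i = g := by omega
  have e2 : F (i + 1) = E + g := by omega
  rw [e1] at h1
  rw [e2] at h2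
  generalize 2 ^ W i = Q at *
  generalize 2 ^ (2 ^ s) = P at *
  have h5 : Q * E + 2 * g ≤ 2 ^ lam := by nlinarith
  have h6 : (E + 2) * 2 ^ lam ≤ P * 2 ^ lam := by
    calc (E + 2) * 2 ^ lam = E * 2 ^ lam + 2 * 2 ^ lam := by ring
      _ ≤ E * (Q * P) + 2 * (P * g) := by gcongr
      _ = P * (Q * E + 2 * g) := by ring
      _ ≤ P * 2 ^ lam := by gcongr
  have := Nat.le_of_mul_le_mul_right h6 hX
  omega

theorem dense {lam s i : ℕ} (hs : 1 ≤ s) (hi : i + 1 = lam + s) (hl : l0 < lam) (hr : i < r)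
    (hN : N i < 2 ^ lam) (hF : 2 ^ lam ≤ 2 ^ (s + 3) * F (i + 1))
    (hsp : 2 ^ lam ≤ N i + 2 * F (i + 1)) :
    (2 ≤ s → lam ≤ V (i + 1) + 2 ^ (s + 1)) ∧
    (∀ E, V (i + 1) = 0 → N i + F (i + 1) = 2 ^ lam + E →
      (E + 1 < 2 ^ (2 ^ s) ∨ (s = 2 ∧ lam ≤ 6 ∧ 64 * N i ≤ 54 * 2 ^ lam))) := by
  by_cases h9 : s ≤ 9
  · have key : (2 ≤ s → lam ≤ V (i + 1) + 2 ^ (s + 1)) ∧
        ∃ L, lam ≤ V (i + 1) + L ∧
        ((N i + F (i + 1) - 2 ^ lam) * 2 ^ L < (2 ^ (2 ^ s) - 1) * 2 ^ lam ∨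
          (s = 2 ∧ L ≤ 6 ∧ 64 * N i ≤ 54 * 2 ^ lam)) := by
      interval_cases s
      · exact h.sound (by norm_num) check1 hs h9 hi hl hr hN hF hsp
      · exact h.sound (by norm_num) check2 hs h9 hi hl hr hN hF hsp
      · exact h.sound (by norm_num) check3 hs h9 hi hl hr hN hF hsp
      · exact h.sound (by norm_num) check4 hs h9 hi hl hr hN hF hsp
      · exact h.sound (by norm_num) check5 hs h9 hi hl hr hN hF hsp
      · exact h.sound (by norm_num) check6 hs h9 hi hl hr hN hF hsp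
      · exact h.sound (by norm_num) check7 hs h9 hi hl hr hN hF hsp
      · exact h.sound (by norm_num) check8 hs h9 hi hl hr hN hF hsp
      · exact h.sound (by norm_num) check9 hs h9 hi hl hr hN hF hsp
    refine ⟨key.1, ?_⟩
    intro E hV hE
    obtain ⟨L, hL, hk⟩ := key.2
    rcases hk with hk | hk
    · left
      have e : N i + F (i + 1) - 2 ^ lam = E := by omega
      rw [e] at hk
      have h1 : 2 ^ lam ≤ 2 ^ L := Nat.pow_le_pow_right (by norm_num) (by omega)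
      have h2 : E * 2 ^ lam < (2 ^ (2 ^ s) - 1) * 2 ^ lam :=
        lt_of_le_of_lt (Nat.mul_le_mul_left _ h1) hk
      have := Nat.lt_of_mul_lt_mul_right h2
      omega
    · right
      exact ⟨hk.1, by omega, hk.2.2⟩
  · have hb0 := h.b0 i (by omega) hr
    have h1 := h.crude (by omega) hi hl.le hr hN (by omega) hF
    constructor
    · intro _
      rw [pow_succ]; omega
    · intro E hV hE
      left
      exact h.top_of_L hi (by omega) hr hN (by omega) hE

theorem last_sparse {lam i : ℕ} (X : ℕ) :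
    (∀ k, lam + 1 ≤ k → k < i → N k + 2 * F (k + 1) < X) ∨
    ∃ k, lam + 1 ≤ k ∧ k < i ∧ X ≤ N k + 2 * F (k + 1) ∧
      ∀ k', k < k' → k' < i → N k' + 2 * F (k' + 1) < X := by
  induction i with
  | zero => left; intro k _ hk; omega
  | succ i ih =>
    by_cases hs : lam + 1 ≤ i ∧ X ≤ N i + 2 * F (i + 1)
    · right
      exact ⟨i, hs.1, by omega, hs.2, fun k' h1 h2 => by omega⟩
    · rcases ih with ih | ⟨k, h1, h2, h3, h4⟩
      · left
        intro k h1 h2
        by_cases e : k = i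
        · subst e; omega
        · exact ih k h1 (by omega)
      · right
        refine ⟨k, h1, by omega, h3, fun k' h5 h6 => ?_⟩
        by_cases e : k' = i
        · subst e; omega
        · exact h4 k' h5 (by omega)

theorem block_gap {lam i k e j : ℕ} (hl : l0 ≤ k) (hk : k + j = i) (hr : i < r)
    (hN : N i < 2 ^ lam) (he : lam + e = k + 1)
    (hd : ∀ k', k ≤ k' → k' < i → N k' + 2 * F (k' + 1) < 2 ^ lam) :
    2 ^ lam ≤ 2 ^ (2 ^ e + j) * (2 ^ lam - N i) := by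
  have h1 := h.gap hl (by omega) (lt_of_le_of_lt (h.N_le hl (by omega : k ≤ i) hr.le) hN) he
  have h2 := h.gap_chain (X := 2 ^ lam) hl j (by omega) (fun k' h1 h2 => hd k' h1 (by omega))
  rw [hk] at h2
  rw [pow_add, mul_assoc]
  exact le_trans h1 (Nat.mul_le_mul_left _ h2)

theorem W_block {lam i k a : ℕ} (hl : l0 ≤ k) (hk : k ≤ i) (hr : i < r)
    (hN : N i < 2 ^ lam) (hF : 2 ^ lam ≤ 2 ^ a * F (i + 1)) : W k < a + (i - k) := by
  apply h.W_lt hl (by omega) (lt_of_le_of_lt (h.N_le hl hk hr.le) hN)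
  rw [pow_add, mul_assoc]
  exact le_trans hF (Nat.mul_le_mul_left _ (h.F_le hl hk hr))

theorem tail {lam : ℕ} (hl : l0 < lam) (i : ℕ) : ∀ s, 2 ≤ s → i + 1 = lam + s → i < r →
    N i < 2 ^ lam → 2 ^ lam ≤ N i + 2 * F (i + 1) → lam ≤ V (i + 1) + 2 ^ (s + 1) := by
  induction i using Nat.strong_induction_on with
  | _ i ih =>
    intro s hs hi hr hN hsp
    have hg : 2 ^ lam - N i ≤ 2 * F (i + 1) := by omega
    rcases h.last_sparse (lam := lam) (i := i) (2 ^ lam) with hd | ⟨k, h1, h2, h3, h4⟩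
    · have h1 := h.block_gap (k := lam + 1) (e := 2) (j := s - 2) (by omega) (by omega) hr hN rfl hd
      refine (h.dense (by omega) hi hl hr hN ?_ hsp).1 hs
      have e : s + 3 = 2 ^ 2 + (s - 2) + 1 := by omega
      rw [e, pow_succ, mul_assoc]
      exact le_trans h1 (Nat.mul_le_mul_left _ hg)
    · obtain ⟨s', hs'⟩ : ∃ s', k + 1 = lam + s' := ⟨k + 1 - lam, by omega⟩
      obtain ⟨j, hj⟩ : ∃ j, k + 1 + j = i := ⟨i - (k + 1), by omega⟩
      have h5 := ih k h2 s' (by omega) hs' (by omega)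
        (lt_of_le_of_lt (h.N_le (by omega) h2.le hr.le) hN) h3
      have h6 := h.block_gap (k := k + 1) (e := s' + 1) (j := j) (by omega) hj hr hN (by omega)
        (fun k' a b => h4 k' (by omega) b)
      have h7 : 2 ^ lam ≤ 2 ^ (2 ^ (s' + 1) + j + 1) * F (i + 1) := by
        rw [pow_succ, mul_assoc]
        exact le_trans h6 (Nat.mul_le_mul_left _ hg)
      have h8 := h.V_sum (i := k + 1) (B := 2 ^ (s' + 1) + 2 * j) (by omega) (j + 1) (by omega)
        (fun k' a b => by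
          have := h.W_block (k := k') (by omega) (by omega) hr hN h7
          omega)
      have hM : 2 ^ 3 ≤ 2 ^ (s' + 1) := Nat.pow_le_pow_right (by norm_num) (by omega)
      have h9 := block_le (2 ^ (s' + 1)) j hM
      have e1 : k + 1 + (j + 1) = i + 1 := by omega
      have e2 : 2 ^ (j + 1) * 2 ^ (s' + 1) = 2 ^ (s + 1) := by
        rw [← pow_add]; congr 1; omega
      rw [e1] at h8
      omega

theorem top_one {lam i s E : ℕ} (hl : l0 < lam) (hs : 3 ≤ s) (hi : i + 1 = lam + s)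
    (hr : i + 1 < r) (hN : N (i + 1) < 2 ^ lam) (hV : V (i + 1 + 1) = 0)
    (hE : N (i + 1) + F (i + 1 + 1) = 2 ^ lam + E) (hL : lam ≤ V i + 2 ^ s) :
    E + 1 < 2 ^ (2 ^ (s + 1)) := by
  have hi0 : l0 ≤ i := by omega
  have v1 := h.vs i hi0 (by omega)
  have v2 := h.vs (i + 1) (by omega) hr
  have st := h.step i hi0 (by omega)
  have b1 := h.b1 i hi0 (by omega)
  have b2 := h.b2 (i + 1) (by omega) hr
  have hNi : N i < 2 ^ lam := by omega
  have hM : 2 ^ 3 ≤ 2 ^ s := Nat.pow_le_pow_right (by norm_num) hs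
  have hX : 0 < 2 ^ lam := by positivity
  by_cases hw : W (i + 1) < 2 ^ s
  · obtain ⟨M, hM'⟩ : ∃ M, 2 ^ s = M + 1 := ⟨2 ^ s - 1, by omega⟩
    have h1 : 2 ^ lam ≤ 2 ^ W (i + 1) * 2 ^ W i * 2 ^ (M + 1) := by
      rw [← pow_add, ← pow_add]; exact Nat.pow_le_pow_right (by norm_num) (by omega)
    have h2 : 2 ^ W (i + 1) ≤ 2 ^ M := Nat.pow_le_pow_right (by norm_num) (by omega)
    have h3 : 2 ^ 2 ≤ 2 ^ M := Nat.pow_le_pow_right (by norm_num) (by omega)
    have e : 2 ^ (2 ^ (s + 1)) = 2 ^ (M + 1) * 2 ^ (M + 1) := by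
      rw [← pow_add, pow_succ, hM']; congr 1; omega
    have h4 : E ≤ F (i + 1 + 1) := by omega
    have h5 : E * 2 ^ lam ≤ (2 ^ M + 1) * 2 ^ (M + 1) * 2 ^ lam := by
      calc E * 2 ^ lam ≤ F (i + 1 + 1) * (2 ^ W (i + 1) * 2 ^ W i * 2 ^ (M + 1)) := by gcongr
        _ = 2 ^ W (i + 1) * F (i + 1 + 1) * 2 ^ W i * 2 ^ (M + 1) := by ring
        _ ≤ (2 ^ W (i + 1) + 1) * F (i + 1) * 2 ^ W i * 2 ^ (M + 1) := by gcongr
        _ = (2 ^ W (i + 1) + 1) * 2 ^ (M + 1) * (2 ^ W i * F (i + 1)) := by ring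
        _ ≤ (2 ^ M + 1) * 2 ^ (M + 1) * 2 ^ lam := by gcongr; omega
    have h6 := Nat.le_of_mul_le_mul_right h5 hX
    rw [e, pow_succ] at *
    nlinarith
  · have hw2 : W i ≤ 2 ^ s := by
      by_contra hc
      have g := h.gap hi0 (by omega) hNi hi.symm
      obtain ⟨c, hc1⟩ : ∃ c, W (i + 1) = 2 ^ s + c := ⟨W (i + 1) - 2 ^ s, by omega⟩
      have h1 : 2 ^ (2 ^ s + 1) ≤ 2 ^ W i := Nat.pow_le_pow_right (by norm_num) (by omega)
      have h2 : 2 ^ (2 ^ s + 1) * F (i + 1) ≤ N i := le_trans (Nat.mul_le_mul_right _ h1) b1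
      rw [hc1, pow_add] at b2
      rw [pow_succ] at h2
      have h3 : 1 ≤ 2 ^ c := Nat.one_le_two_pow
      obtain ⟨g1, hg1⟩ : ∃ g1, 2 ^ lam = N i + F (i + 1) + (g1 + 1) :=
        ⟨2 ^ lam - (N i + F (i + 1)) - 1, by omega⟩
      have e1 : 2 ^ lam - N i = F (i + 1) + (g1 + 1) := by omega
      rw [e1] at g
      have h4 : g1 + 1 ≤ F (i + 1 + 1) := by omega
      generalize 2 ^ (2 ^ s) = P at *
      generalize 2 ^ c = R at *
      have h5 : P * F (i + 1 + 1) ≤ (P + 1) * F (i + 1) := by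
        apply Nat.le_of_mul_le_mul_left _ h3
        nlinarith
      have h6 : P * (g1 + 1) ≤ P * F (i + 1 + 1) := Nat.mul_le_mul_left _ h4
      nlinarith
    apply h.top_of_L (i := i + 1) (by omega) (by omega) hr hN _ hE
    rw [pow_succ]; omega

theorem top {lam i E : ℕ} (hi0 : l0 ≤ i) (hr : i < r) (hN : N i < 2 ^ lam) (hV : V (i + 1) = 0)
    (hE : N i + F (i + 1) = 2 ^ lam + E) :
    ∃ s, i + 1 = lam + s ∧
      (E + 1 < 2 ^ (2 ^ s) ∨ (s = 2 ∧ lam ≤ 6 ∧ 64 * N i ≤ 54 * 2 ^ lam)) := by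
  have hl : l0 < lam :=
    (Nat.pow_lt_pow_iff_right (by norm_num : 1 < 2)).1 (lt_of_le_of_lt (h.N_ge hi0 hr.le) hN)
  have b0 := h.b0 i hi0 hr
  have hli : lam ≤ i := by
    by_contra hc
    have h1 := (h.good i hi0 hr).le_pow (h.N_pos hi0 hr.le)
    have h2 : 2 ^ (i + 1) ≤ 2 ^ lam := Nat.pow_le_pow_right (by norm_num) (by omega)
    have h3 := h.N_pos hi0 hr.le
    rw [pow_succ] at h2
    omega
  obtain ⟨s, hs⟩ : ∃ s, i + 1 = lam + s := ⟨i + 1 - lam, by omega⟩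
  refine ⟨s, hs, ?_⟩
  have hg : 2 ^ lam - N i ≤ F (i + 1) := by omega
  have hv := h.vs i hi0 hr
  rcases h.last_sparse (lam := lam) (i := i) (2 ^ lam) with hd | ⟨k, h1, h2, h3, h4⟩
  · refine (h.dense (by omega) hs hl hr hN ?_ (by omega)).2 E hV hE
    by_cases h1 : s = 1
    · subst h1
      have h2 := h.gap hi0 hr hN hs.symm
      refine le_trans h2 (Nat.mul_le_mul (by norm_num) hg)
    · have h2 := h.block_gap (k := lam + 1) (e := 2) (j := s - 2) (by omega) (by omega) hr hN rfl hd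
      refine le_trans h2 (Nat.mul_le_mul (Nat.pow_le_pow_right (by norm_num) (by omega)) hg)
  · left
    obtain ⟨s', hs'⟩ : ∃ s', k + 1 = lam + s' := ⟨k + 1 - lam, by omega⟩
    obtain ⟨j, hj⟩ : ∃ j, k + 1 + j = i := ⟨i - (k + 1), by omega⟩
    have h5 := h.tail hl k s' (by omega) hs' (by omega)
      (lt_of_le_of_lt (h.N_le (by omega) h2.le hr.le) hN) h3
    by_cases hj1 : j = 1
    · subst hj1
      subst hj
      have e : s = s' + 1 + 1 := by omega
      rw [e]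
      exact h.top_one hl (by omega) (by omega) hr hN hV hE h5
    · have h6 := h.block_gap (k := k + 1) (e := s' + 1) (j := j) (by omega) hj hr hN (by omega)
        (fun k' a b => h4 k' (by omega) b)
      have h7 : 2 ^ lam ≤ 2 ^ (2 ^ (s' + 1) + j) * F (i + 1) :=
        le_trans h6 (Nat.mul_le_mul_left _ hg)
      have h8 := h.V_sum (i := k + 1) (B := 2 ^ (s' + 1) + 2 * j) (by omega) j (by omega)
        (fun k' a b => by
          have := h.W_block (k := k') (by omega) (by omega) hr hN h7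
          omega)
      have hM : 2 ^ 3 ≤ 2 ^ (s' + 1) := Nat.pow_le_pow_right (by norm_num) (by omega)
      have h9 := block_le2 (2 ^ (s' + 1)) j hM hj1
      have e2 : 2 ^ j * 2 ^ (s' + 1) = 2 ^ s := by
        rw [← pow_add]; congr 1; omega
      rw [hj] at h8
      exact h.top_of_L hs hi0 hr hN (by omega) hE

end Seq

end Pool.Agent.P.MP_10b087_nt
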