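import Pool.Agent.P.MP_10b087_nt.Step

set_option autoImplicit false

namespace Pool.Agent.P.MP_10b087_nt

/-- numerical data of a sequence of deletions, indexed by the length of the program -/
structure Seq (l0 r : ℕ) (N F V W : ℕ → ℕ) : Prop where
  le : l0 ≤ r
  N0 : N l0 = 2 ^ l0
  F0 : F l0 = N l0
  V0 : l0 ≤ V l0
  step : ∀ i, l0 ≤ i → i < r → N (i + 1) = N i + F (i + 1)
  good : ∀ i, l0 ≤ i → i < r → Good i (N i)
  b0 : ∀ i, l0 ≤ i → i < r → 2 * F (i + 1) ≤ N i
  b1 : ∀ i, l0 ≤ i → i < r → 2 ^ W i * F (i + 1) ≤ N i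
  b2 : ∀ i, l0 ≤ i → i < r → 2 ^ W i * F (i + 1) ≤ (2 ^ W i + 1) * F i
  vs : ∀ i, l0 ≤ i → i < r → V i ≤ V (i + 1) + W i

theorem Seq.extend {l0 r : ℕ} {N F V W : ℕ → ℕ} (h : Seq l0 r N F V W) (f v w : ℕ)
    (hg : Good r (N r)) (h0 : 2 * f ≤ N r) (h1 : 2 ^ w * f ≤ N r)
    (h2 : 2 ^ w * f ≤ (2 ^ w + 1) * F r) (h3 : V r ≤ v + w) :
    Seq l0 (r + 1) (Function.update N (r + 1) (N r + f)) (Function.update F (r + 1) f)
      (Function.update V (r + 1) v) (Function.update W r w) := by
  have hle := h.le
  have up : ∀ (X : ℕ → ℕ) (a i : ℕ), i ≤ r → Function.update X (r + 1) a i = X i :=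
    fun X a i hi => Function.update_of_ne (by omega) _ _
  have up2 : ∀ (X : ℕ → ℕ) (a i : ℕ), i < r → Function.update X r a i = X i :=
    fun X a i hi => Function.update_of_ne (by omega) _ _
  constructor
  · omega
  · rw [up _ _ _ hle, h.N0]
  · rw [up _ _ _ hle, up _ _ _ hle, h.F0]
  · rw [up _ _ _ hle]; exact h.V0
  · intro i hi hir
    by_cases e : i = r
    · subst e; simp
    · rw [up _ _ _ (by omega), up _ _ _ (by omega), up _ _ _ (by omega)]
      exact h.step i hi (by omega)
  · intro i hi hir
    by_cases e : i = r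
    · subst e; simpa using hg
    · rw [up _ _ _ (by omega)]
      exact h.good i hi (by omega)
  · intro i hi hir
    by_cases e : i = r
    · subst e; simpa using h0
    · rw [up _ _ _ (by omega), up _ _ _ (by omega)]
      exact h.b0 i hi (by omega)
  · intro i hi hir
    by_cases e : i = r
    · subst e; simpa using h1
    · rw [up _ _ _ (by omega), up _ _ _ (by omega), up2 _ _ _ (by omega)]
      exact h.b1 i hi (by omega)
  · intro i hi hir
    by_cases e : i = r
    · subst e; simpa using h2
    · rw [up _ _ _ (by omega), up _ _ _ (by omega), up2 _ _ _ (by omega)]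
      exact h.b2 i hi (by omega)
  · intro i hi hir
    by_cases e : i = r
    · subst e; simpa using h3
    · rw [up _ _ _ (by omega), up _ _ _ (by omega), up2 _ _ _ (by omega)]
      exact h.vs i hi (by omega)

namespace SLP

theorem val_le (G : SLP) (v : ℕ) : G.c 0 v ≤ 2 ^ G.len v := by
  induction v using Nat.strong_induction_on with
  | _ v ih =>
    rcases Nat.eq_zero_or_pos v with h0 | h0
    · subst h0; rw [c_self]; exact Nat.one_le_two_pow
    · have hv : v ∈ G.U v := G.mem_U.2 ⟨h0, by rw [c_self]; omega⟩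
      have key : ∀ β, 2 * 2 ^ G.len (G.p v β) ≤ 2 ^ G.len v := by
        intro β
        rw [← pow_succ']
        apply Nat.pow_le_pow_right (by norm_num)
        apply Finset.card_lt_card
        have l := G.lt v β h0
        rw [Finset.ssubset_iff_of_subset]
        · refine ⟨v, hv, fun h => ?_⟩
          have := G.le_of_c_pos (G.mem_U.1 h).2
          omega
        · intro w hw
          rw [mem_U] at hw ⊢
          exact ⟨hw.1, G.c_pos_trans hw.2 (G.c_par_pos β h0)⟩
      have h1 := ih _ (G.lt v true h0)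
      have h2 := ih _ (G.lt v false h0)
      have := key true
      have := key false
      rw [G.c_step (by omega) h0]
      omega

theorem exists_seq (l : ℕ) : ∀ (G : SLP) (t : ℕ), G.len t = l →
    (∀ (G' : SLP) (t' : ℕ), G'.len t' < l → Good (G'.len t') (G'.c 0 t')) →
    ∃ (l0 : ℕ) (N F V W : ℕ → ℕ), Seq l0 l N F V W ∧ N l = G.c 0 t ∧ V l = (G.S t).card ∧
      (l0 = l ∨ ∃ m b, m ∈ G.U t ∧ m ∉ G.S t ∧ F l = G.flow t m b) := by
  induction l using Nat.strong_induction_on with
  | _ l ih =>
    intro G t hl hKS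
    by_cases hS : G.S t = G.U t
    · have h1 := G.two_pow_S_le t
      have h2 := G.val_le t
      have h3 : (G.S t).card = l := by rw [hS]; exact hl
      rw [h3] at h1
      rw [hl] at h2
      refine ⟨l, fun _ => 2 ^ l, fun _ => 2 ^ l, fun _ => l, fun _ => 0, ?_, le_antisymm h1 h2, h3.symm,
        Or.inl rfl⟩
      constructor
      all_goals first | rfl | (intro i h1 h2; omega)
    · obtain ⟨m0, b0, hm0, h30⟩ := G.exists_third hS
      obtain ⟨⟨m, b⟩, hmb, hmin⟩ := Finset.exists_min_image ((G.U t) ×ˢ (Finset.univ : Finset Bool))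
        (fun e => G.flow t e.1 e.2) ⟨(m0, b0), by simp [hm0]⟩
      have hU : m ∈ G.U t := by simpa using hmb
      have hmin' : ∀ m' ∈ G.U t, ∀ b', G.flow t m b ≤ G.flow t m' b' :=
        fun m' hm' b' => hmin (m', b') (by simp [hm'])
      have h3 : 3 * G.flow t m b ≤ G.c 0 t := by
        have := hmin' m0 hm0 b0
        omega
      have hm := (G.mem_U.1 hU).1
      have hlen := G.con_len_eq hm (G.two_q_le hU hmin' h3) hU
      obtain ⟨w, hw1, hw2, hw3⟩ := G.step hm hU hmin' h3
      have hval := G.con_val b hm t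
      have hmS : m ∉ G.S t := by
        intro h
        have := G.S_flow h b
        have := G.flow_pos b hU
        omega
      generalize G.con m b hm = G' at *
      generalize phi m (G.p m (!b)) t = t' at *
      obtain ⟨l0, N, F, V, W, hs, hN, hV, hF⟩ := ih (G'.len t') (by omega) G' t' rfl
        (fun G2 t2 h => hKS G2 t2 (by omega))
      have hext := hs.extend (G.flow t m b) (G.S t).card w (by rw [hN]; exact hKS G' t' (by omega))
        (by omega) (by omega) (by
          rcases hF with hF | ⟨m', b', h1, h2, h4⟩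
          · have := hs.F0
            rw [hF] at this
            rw [this, hN]
            have : 1 ≤ 2 ^ w + 1 := Nat.le_add_left _ _
            nlinarith
          · rw [h4]; exact hw3 m' h1 h2 b') (by omega)
      have el : G'.len t' + 1 = l := by omega
      rw [el] at hext
      refine ⟨l0, _, _, _, _, hext, ?_, ?_, Or.inr ⟨m, b, hU, hmS, ?_⟩⟩
      · simp; omega
      · simp
      · simp

end SLP

end Pool.Agent.P.MP_10b087_nt
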