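import Pool.Agent.P.MP_10b087_nt.Basic
import Pool.Agent.P.MP_10b087_nt.Check

set_option autoImplicit false

namespace Pool.Agent.P.MP_10b087_nt

theorem hit_spec {B S nxt L a f : ℕ} (hB : 0 < B) (h : hit B S nxt L a f = true) :
    ∃ i, i < S ∧ a ≤ getN nxt i ∧ f ≤ getF nxt i ∧ L ≤ i / B := by
  obtain ⟨j, hj⟩ := anyB_spec h
  simp only [force_eq, Bool.and_eq_true, Nat.blt_eq, Nat.ble_eq] at hj
  refine ⟨L * B + j, hj.1.1, hj.1.2, hj.2, ?_⟩
  rw [Nat.le_div_iff_mul_le hB]; omega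

theorem le_mn {x a b X : ℕ} (h1 : x ≤ a * X) (h2 : x ≤ b * X) : x ≤ mn a b * X := by
  rcases mn_cases a b with h | h <;> rw [h] <;> assumption

theorem fl_spec {n f g a p w X Y : ℕ} (h0 : 2 * f ≤ n) (h1 : 2 ^ w * f ≤ n)
    (h2 : 2 ^ w * f ≤ (2 ^ w + 1) * g) (ha : n * Y ≤ a * X) (hp : g * Y ≤ p * X) :
    f * Y ≤ fl a p w * X := by
  have key : ∀ v, 2 ^ v * f ≤ n → f * Y ≤ cdiv a v * X := by
    intro v hv
    have h3 := le_cdiv a v
    apply Nat.le_of_mul_le_mul_left _ (by positivity : 0 < 2 ^ v)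
    calc 2 ^ v * (f * Y) = 2 ^ v * f * Y := by ring
      _ ≤ n * Y := by gcongr
      _ ≤ a * X := ha
      _ ≤ 2 ^ v * cdiv a v * X := by gcongr
      _ = _ := by ring
  unfold fl
  apply le_mn (le_mn (key 1 (by simpa using h0)) (key w h1))
  have h3 := le_cdiv p w
  apply Nat.le_of_mul_le_mul_left _ (by positivity : 0 < 2 ^ w)
  calc 2 ^ w * (f * Y) = 2 ^ w * f * Y := by ring
    _ ≤ (2 ^ w + 1) * g * Y := by gcongr
    _ = (2 ^ w + 1) * (g * Y) := by ring
    _ ≤ (2 ^ w + 1) * (p * X) := by gcongr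
    _ = 2 ^ w * (p * X) + p * X := by ring
    _ ≤ 2 ^ w * (p * X) + 2 ^ w * cdiv p w * X := by gcongr
    _ = _ := by ring

theorem scale {x a c D X Y : ℕ} (hX : 0 < X) (h1 : x * Y ≤ a * X) (h2 : X * D ≤ c * x) :
    Y * D ≤ c * a := by
  apply Nat.le_of_mul_le_mul_right _ hX
  calc Y * D * X = Y * (X * D) := by ring
    _ ≤ Y * (c * x) := by gcongr
    _ = c * (x * Y) := by ring
    _ ≤ c * (a * X) := by gcongr
    _ = _ := by ring

theorem capv_spec {n b k e : ℕ} (hk : k ≤ 48) (hn : n < 2 ^ b)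
    (h : 2 ^ b ≤ 2 ^ (2 ^ e) * (2 ^ b - n)) : n * 2 ^ 48 ≤ capv k e * 2 ^ (b + k) := by
  unfold capv
  obtain ⟨g, hg⟩ : ∃ g, 2 ^ b = n + g := ⟨2 ^ b - n, by omega⟩
  have e1 : 2 ^ b - n = g := by omega
  rw [e1] at h
  have e2 : 2 ^ 48 = 2 ^ (48 - k) * 2 ^ k := by rw [← pow_add]; congr 1; omega
  rw [e2, pow_add]
  generalize 2 ^ (48 - k) = T
  generalize 2 ^ (2 ^ e) = P at *
  have h1 : T / P * P ≤ T := Nat.div_mul_le_self _ _
  have h2 : T / P ≤ T := Nat.div_le_self _ _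
  generalize T / P = D at *
  obtain ⟨C, hC⟩ : ∃ C, T = C + D := ⟨T - D, by omega⟩
  have e3 : T - D = C := by omega
  rw [e3]
  have h3 : D * 2 ^ b ≤ T * g := by
    calc D * 2 ^ b ≤ D * (P * g) := by gcongr
      _ = D * P * g := by ring
      _ ≤ T * g := by gcongr
  have h4 : n * T ≤ C * 2 ^ b := by
    have : T * 2 ^ b = C * 2 ^ b + D * 2 ^ b := by rw [hC]; ring
    have : T * 2 ^ b = n * T + T * g := by rw [hg]; ring
    omega
  calc n * (T * 2 ^ k) = n * T * 2 ^ k := by ring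
    _ ≤ C * 2 ^ b * 2 ^ k := by gcongr
    _ = _ := by ring

/-- the state at level `i` is dominated by an entry of the table -/
def Cov (N F V : ℕ → ℕ) (lam B S x i : ℕ) : Prop :=
  ∃ j, j < S ∧ N i * 2 ^ 48 ≤ getN x j * 2 ^ lam ∧ F i * 2 ^ 48 ≤ getF x j * 2 ^ lam ∧
    lam ≤ V i + j / B

theorem Seq.cov_step {l0 r : ℕ} {N F V W : ℕ → ℕ} (h : Seq l0 r N F V W)
    {lam B S thr rem cp cur nxt i : ℕ} (hB : 0 < B) (hi : l0 ≤ i) (hr : i < r)
    (hN : N i < 2 ^ lam) (hF : 2 ^ lam ≤ 2 ^ thr * F (i + 1))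
    (hcp : N (i + 1) * 2 ^ 48 ≤ cp * 2 ^ lam)
    (hrem : 2 ^ lam * 2 ^ rem ≤ 3 ^ rem * 2 * N (i + 1))
    (hok : stepOK B S thr rem cp cur nxt = true) (hc : Cov N F V lam B S cur i) :
    Cov N F V lam B S nxt (i + 1) := by
  obtain ⟨j, hj, c1, c2, c3⟩ := hc
  have hX : 0 < 2 ^ lam := by positivity
  have h1 := allB_spec hok j hj
  simp only [force_eq, Bool.or_eq_true, Nat.beq_eq] at h1
  rcases h1 with h1 | h1
  · have := h.N_pos hi hr.le
    rw [h1] at c1
    omega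
  · have h2 := allB_spec h1 (W i) (h.W_lt hi hr hN hF)
    simp only [Bool.or_eq_true, Nat.blt_eq] at h2
    have hf := fl_spec (h.b0 i hi hr) (h.b1 i hi hr) (h.b2 i hi hr) c1 c2
    have hs := h.step i hi hr
    have ha : N (i + 1) * 2 ^ 48 ≤
        mn (getN cur j + fl (getN cur j) (getF cur j) (W i)) cp * 2 ^ lam := by
      apply le_mn _ hcp
      rw [hs, add_mul, add_mul]
      exact add_le_add c1 hf
    rcases h2 with h2 | h2 | h2
    · have := scale (D := 1) hX hf (by simpa using hF)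
      rw [mul_comm] at h2
      omega
    · have := scale hX ha hrem
      rw [mul_assoc, mul_comm] at h2
      omega
    · obtain ⟨j', g1, g2, g3, g4⟩ := hit_spec hB h2
      have := h.vs i hi hr
      exact ⟨j', g1, le_trans ha (Nat.mul_le_mul_right _ g2), le_trans hf (Nat.mul_le_mul_right _ g3),
        by omega⟩

theorem Seq.sound {l0 r : ℕ} {N F V W : ℕ → ℕ} (h : Seq l0 r N F V W)
    {lam s i B S : ℕ} {tab : ℕ → ℕ} (hB : 0 < B) (hc : check B S s tab = true)
    (hs : 1 ≤ s) (hs9 : s ≤ 9) (hi : i + 1 = lam + s) (hl : l0 < lam) (hr : i < r)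
    (hN : N i < 2 ^ lam) (hF : 2 ^ lam ≤ 2 ^ (s + 3) * F (i + 1))
    (hsp : 2 ^ lam ≤ N i + 2 * F (i + 1)) :
    (2 ≤ s → lam ≤ V (i + 1) + 2 ^ (s + 1)) ∧
    ∃ L, lam ≤ V (i + 1) + L ∧
      ((N i + F (i + 1) - 2 ^ lam) * 2 ^ L < (2 ^ (2 ^ s) - 1) * 2 ^ lam ∨
        (s = 2 ∧ L ≤ 6 ∧ 64 * N i ≤ 54 * 2 ^ lam)) := by
  have hX : 0 < 2 ^ lam := by positivity
  have hb0 := h.b0 i (by omega) hr
  have hN2 : 2 ^ lam ≤ 2 * N i := by omega
  have ho := h.o_bound hs hi hr hN2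
  unfold check at hc
  simp only [force_eq, Bool.and_eq_true] at hc
  obtain ⟨hc1, hc2⟩ := hc
  have hc3 := allB_spec hc1
  simp only [Bool.and_eq_true, Bool.or_eq_true, Nat.ble_eq] at hc3
  have main : ∀ j n, l0 + j ≤ i → l0 + j + 2 * s = lam + n → Cov N F V lam B S (tab n) (l0 + j) := by
    intro j
    induction j with
    | zero =>
      intro n h1 h2
      rcases (hc3 n (by omega)).1 with h3 | h3
      · omega
      · obtain ⟨j', g1, g2, g3, g4⟩ := hit_spec hB h3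
        have e : N l0 * 2 ^ 48 = 2 ^ (48 - (2 * s - n)) * 2 ^ lam := by
          rw [h.N0, ← pow_add, ← pow_add]; congr 1; omega
        have := h.V0
        refine ⟨j', g1, ?_, ?_, by simp only [add_zero]; omega⟩
        · rw [add_zero, e]; exact Nat.mul_le_mul_right _ g2
        · rw [add_zero, h.F0, e]; exact Nat.mul_le_mul_right _ g3
    | succ j ih =>
      intro n h1 h2
      obtain ⟨n, rfl⟩ : ∃ n', n = n' + 1 := ⟨n - 1, by omega⟩
      have h3 := ih n (by omega) (by omega)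
      have hlt : ∀ k, l0 ≤ k → k ≤ i → N k < 2 ^ lam :=
        fun k h1 h2 => lt_of_le_of_lt (h.N_le h1 h2 hr.le) hN
      rw [← add_assoc]
      refine h.cov_step hB (by omega) (by omega) (hlt _ (by omega) (by omega)) ?_ ?_ ?_
        (hc3 n (by omega)).2 h3
      · have h4 := h.F_le (i := l0 + j) (k := i) (by omega) (by omega) hr
        have e : i - (l0 + j) = 3 * s - 1 - n := by omega
        rw [e] at h4
        rw [pow_add, mul_assoc]
        exact le_trans hF (Nat.mul_le_mul_left _ h4)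
      · obtain ⟨b, hb⟩ : ∃ b, lam = b + (2 * s - n - 2) := ⟨lam - (2 * s - n - 2), by omega⟩
        have h4 : N (l0 + j + 1) < 2 ^ b := by
          by_cases h5 : 2 * s - n - 2 = 0
          · have : b = lam := by omega
            rw [this]; exact hlt _ (by omega) (by omega)
          · have : b = l0 + j + 1 + 1 := by omega
            have h6 := (h.good (l0 + j + 1) (by omega) (by omega)).le_pow
              (h.N_pos (by omega) (by omega))
            have : 0 < 2 ^ (l0 + j + 1) := by positivity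
            subst b
            rw [pow_succ]; omega
        have h5 := h.gap (e := n + 2 - 2 * s) (by omega) (by omega) h4 (by omega)
        have h6 := capv_spec (k := 2 * s - n - 2) (by omega) h4 h5
        rwa [← hb] at h6
      · have h4 := h.N_growth (i := l0 + j + 1) (by omega) (3 * s - 2 - n) (by omega)
        have e : l0 + j + 1 + (3 * s - 2 - n) = i := by omega
        rw [e] at h4
        calc 2 ^ lam * 2 ^ (3 * s - 2 - n) ≤ 2 * N i * 2 ^ (3 * s - 2 - n) := by gcongr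
          _ = 2 * (2 ^ (3 * s - 2 - n) * N i) := by ring
          _ ≤ 2 * (3 ^ (3 * s - 2 - n) * N (l0 + j + 1)) := by gcongr
          _ = _ := by ring
  have hcov := main (i - l0) (3 * s - 1) (by omega) (by omega)
  have e : l0 + (i - l0) = i := by omega
  rw [e] at hcov
  obtain ⟨j, hj, c1, c2, c3⟩ := hcov
  have hi0 : l0 ≤ i := by omega
  have h1 := allB_spec hc2 j hj
  simp only [force_eq, Bool.or_eq_true, Nat.beq_eq] at h1
  rcases h1 with h1 | h1
  · have := h.N_pos hi0 hr.le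
    rw [h1] at c1
    omega
  have h2 := allB_spec h1 (W i) (h.W_lt hi0 hr hN hF)
  simp only [Bool.or_eq_true, Bool.and_eq_true, Nat.blt_eq, Nat.ble_eq, Nat.beq_eq] at h2
  have hf := fl_spec (h.b0 i hi0 hr) (h.b1 i hi0 hr) (h.b2 i hi0 hr) c1 c2
  have hv := h.vs i hi0 hr
  generalize fl (getN (tab (3 * s - 1)) j) (getF (tab (3 * s - 1)) j) (W i) = f at *
  generalize getN (tab (3 * s - 1)) j = a at *
  obtain ⟨h3, h4⟩ := h2
  constructor
  · intro hs2
    rcases h3 with (h3 | h3) | h3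
    · exfalso
      have h5 : (N i + 2 * F (i + 1)) * 2 ^ 48 ≤ (a + 2 * f) * 2 ^ lam := by
        rw [add_mul, add_mul, mul_assoc, mul_assoc]
        exact add_le_add c1 (Nat.mul_le_mul_left 2 hf)
      have := scale (D := 1) (c := 1) hX h5 (by simpa using hsp)
      omega
    · omega
    · omega
  · refine ⟨j / B + W i, by omega, ?_⟩
    rcases h4 with h4 | h4
    · left
      have h5 : (N i + F (i + 1) - 2 ^ lam) * 2 ^ 48 ≤ (a + f - 2 ^ 48) * 2 ^ lam := by
        rw [Nat.sub_mul, Nat.sub_mul, add_mul, add_mul, mul_comm (2 ^ lam) (2 ^ 48)]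
        omega
      apply Nat.lt_of_mul_lt_mul_right (a := 2 ^ 48)
      calc (N i + F (i + 1) - 2 ^ lam) * 2 ^ (j / B + W i) * 2 ^ 48
          = (N i + F (i + 1) - 2 ^ lam) * 2 ^ 48 * 2 ^ (j / B + W i) := by ring
        _ ≤ (a + f - 2 ^ 48) * 2 ^ lam * 2 ^ (j / B + W i) := by gcongr
        _ = (a + f - 2 ^ 48) * 2 ^ (j / B + W i) * 2 ^ lam := by ring
        _ < (2 ^ 2 ^ s - 1) * 2 ^ 48 * 2 ^ lam := Nat.mul_lt_mul_of_pos_right h4 hX
        _ = _ := by ring
    · right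
      refine ⟨h4.1.1, h4.1.2, ?_⟩
      have h5 := h4.2
      apply Nat.le_of_mul_le_mul_right _ (by positivity : 0 < 2 ^ 48)
      calc 64 * N i * 2 ^ 48 = 64 * (N i * 2 ^ 48) := by ring
        _ ≤ 64 * (a * 2 ^ lam) := by gcongr
        _ = 64 * a * 2 ^ lam := by ring
        _ ≤ 54 * 2 ^ 48 * 2 ^ lam := by gcongr
        _ = _ := by ring

end Pool.Agent.P.MP_10b087_nt
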