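import Pool.Agent.P.MP_10b087_nt.Graph

set_option autoImplicit false

namespace Pool.Agent.P.MP_10b087_nt

namespace SLP

/-- representative of a vertex when only the paths through the edge `y → m` are kept -/
def psi (G : SLP) (m y : ℕ) (v : ℕ) : ℕ :=
  if v = m then y else if _h : v = 0 then 0 else
    if 0 < G.c m (G.p v true) then
      (if 0 < G.c m (G.p v false) then v else psi G m y (G.p v true))
    else if 0 < G.c m (G.p v false) then psi G m y (G.p v false) else v
termination_by v
decreasing_by all_goals exact G.lt _ _ (Nat.pos_of_ne_zero _h)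

variable (G : SLP)

theorem psi_m (m y : ℕ) : G.psi m y m = y := by rw [psi]; simp

theorem psi_zero {m : ℕ} (y : ℕ) (h : 0 < m) : G.psi m y 0 = 0 := by
  rw [psi]; simp [h.ne]

theorem psi_both {m v : ℕ} (y : ℕ) (h : v ≠ m) (h1 : 0 < G.c m (G.p v true))
    (h2 : 0 < G.c m (G.p v false)) : G.psi m y v = v := by
  rw [psi]; simp [h, h1, h2]; omega

theorem psi_none {m v : ℕ} (y : ℕ) (h : v ≠ m) (h1 : G.c m (G.p v true) = 0)
    (h2 : G.c m (G.p v false) = 0) : G.psi m y v = v := by
  rw [psi]; simp [h, h1, h2]; omega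

theorem psi_mixed {m v : ℕ} (y : ℕ) (b : Bool) (h : v ≠ m) (h0 : 0 < v) (h1 : 0 < G.c m (G.p v b))
    (h2 : G.c m (G.p v (!b)) = 0) : G.psi m y v = G.psi m y (G.p v b) := by
  rw [psi]
  cases b
  · simp at h2
    simp [h, h0.ne', h1, h2]
  · simp at h2
    simp [h, h0.ne', h1, h2]

theorem par_cases (m v : ℕ) :
    (0 < G.c m (G.p v true) ∧ 0 < G.c m (G.p v false)) ∨
    (G.c m (G.p v true) = 0 ∧ G.c m (G.p v false) = 0) ∨
    (∃ b, 0 < G.c m (G.p v b) ∧ G.c m (G.p v (!b)) = 0) := by
  rcases Nat.eq_zero_or_pos (G.c m (G.p v true)) with h1 | h1 <;>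
    rcases Nat.eq_zero_or_pos (G.c m (G.p v false)) with h2 | h2
  · exact Or.inr (Or.inl ⟨h1, h2⟩)
  · exact Or.inr (Or.inr ⟨false, h2, h1⟩)
  · exact Or.inr (Or.inr ⟨true, h1, h2⟩)
  · exact Or.inl ⟨h1, h2⟩

theorem psi_le {m y : ℕ} (hy : y < m) (v : ℕ) : G.psi m y v ≤ v := by
  induction v using Nat.strong_induction_on with
  | _ v ih =>
    by_cases hv : v = m
    · subst hv; rw [psi_m]; omega
    · rcases Nat.eq_zero_or_pos v with h0 | h0
      · subst h0; rw [G.psi_zero y (by omega)]
      · rcases G.par_cases m v with h | h | ⟨b, h⟩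
        · rw [G.psi_both y hv h.1 h.2]
        · rw [G.psi_none y hv h.1 h.2]
        · rw [G.psi_mixed y b hv h0 h.1 h.2]
          have := G.lt v b h0
          have := ih _ this
          omega

theorem psi_low {m v : ℕ} (y : ℕ) (h : v < m) : G.psi m y v = v := by
  rcases Nat.eq_zero_or_pos v with h0 | h0
  · subst h0; exact G.psi_zero y h
  · have h1 := G.lt v true h0
    have h2 := G.lt v false h0
    exact G.psi_none y (by omega) (G.c_of_lt (by omega)) (G.c_of_lt (by omega))

/-- the program computing the flow -/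
def keep (m y : ℕ) (hy : y < m) : SLP where
  p v β := G.psi m y (G.p v β)
  lt v β hv := lt_of_le_of_lt (G.psi_le hy _) (G.lt v β hv)

theorem keep_p (m y : ℕ) (hy : y < m) (v : ℕ) (β : Bool) :
    (G.keep m y hy).p v β = G.psi m y (G.p v β) := rfl

theorem keep_val {m y : ℕ} (hy : y < m) (v : ℕ) :
    (G.keep m y hy).c 0 (G.psi m y v) =
      if 0 < G.c m v then G.c m v * G.c 0 y else G.c 0 v := by
  induction v using Nat.strong_induction_on with
  | _ v ih =>
    by_cases hv : v = m
    · subst hv
      have := ih y hy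
      rw [G.psi_low y hy, G.c_of_lt hy] at this
      rw [psi_m, c_self, this]; simp
    · rcases Nat.eq_zero_or_pos v with h0 | h0
      · subst h0
        rw [G.psi_zero y (by omega), c_self, c_self, G.c_zero (by omega)]; simp
      · have e1 := ih _ (G.lt v true h0)
        have e2 := ih _ (G.lt v false h0)
        rcases G.par_cases m v with h | h | ⟨b, h⟩
        · rw [G.psi_both y hv h.1 h.2, c_step _ (by omega) h0, keep_p, keep_p, e1, e2,
            G.c_step hv h0, if_pos h.1, if_pos h.2, if_pos (by omega)]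
          ring
        · rw [G.psi_none y hv h.1 h.2, c_step _ (by omega) h0, keep_p, keep_p, e1, e2,
            G.c_step hv h0, G.c_step (u := 0) (by omega) h0, h.1, h.2]
          simp
        · rw [G.psi_mixed y b hv h0 h.1 h.2, ih _ (G.lt v b h0), G.c_step' b hv h0, h.2,
            if_pos h.1, if_pos (by omega)]
          simp

theorem keep_used {m y t : ℕ} (hy : y < m) (hyt : 0 < G.c y t) (v : ℕ)
    (h1 : 0 < G.c m v ∨ 0 < G.c v y) (h2 : 0 < G.c v t) (w : ℕ)
    (hw : 0 < (G.keep m y hy).c w (G.psi m y v)) :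
    0 < G.c w t ∧ (0 < G.c w y ∨ (0 < G.c m (G.p w true) ∧ 0 < G.c m (G.p w false) ∧ m < w)) := by
  induction v using Nat.strong_induction_on with
  | _ v ih =>
    by_cases hv : v = m
    · subst hv
      rw [psi_m] at hw
      apply ih y hy (Or.inr (by rw [c_self]; omega)) hyt
      rwa [G.psi_low y hy]
    · rcases Nat.eq_zero_or_pos v with h0 | h0
      · subst h0
        rw [G.psi_zero y (by omega)] at hw
        have : w = 0 := by have := le_of_c_pos _ hw; omega
        subst this
        exact ⟨h2, Or.inl (G.c_zero_pos y)⟩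
      · rcases G.par_cases m v with h | h | ⟨b, h⟩
        · rw [G.psi_both y hv h.1 h.2] at hw
          by_cases hwv : v = w
          · subst hwv
            have := G.le_of_c_pos h.1
            have := G.lt v true h0
            exact ⟨h2, Or.inr ⟨h.1, h.2, by omega⟩⟩
          · obtain ⟨β, hβ⟩ := exists_par _ hw hwv
            refine ih _ (G.lt v β h0) (Or.inl ?_) (G.c_pos_trans (G.c_par_pos β h0) h2) hβ
            cases β
            · exact h.2
            · exact h.1
        · rw [G.psi_none y hv h.1 h.2] at hw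
          have h3 : 0 < G.c v y := by
            rcases h1 with h1 | h1
            · rw [G.c_step hv h0] at h1; omega
            · exact h1
          by_cases hwv : v = w
          · subst hwv
            exact ⟨h2, Or.inl h3⟩
          · obtain ⟨β, hβ⟩ := exists_par _ hw hwv
            exact ih _ (G.lt v β h0) (Or.inr (G.c_pos_trans (G.c_par_pos β h0) h3))
              (G.c_pos_trans (G.c_par_pos β h0) h2) hβ
        · rw [G.psi_mixed y b hv h0 h.1 h.2] at hw
          exact ih _ (G.lt v b h0) (Or.inl h.1) (G.c_pos_trans (G.c_par_pos b h0) h2) hw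

/-- the remaining vertices -/
def rest (t m y : ℕ) : Finset ℕ :=
  (G.U t).filter (fun w => w ≠ m ∧ G.c w y = 0 ∧
    ¬ (0 < G.c m (G.p w true) ∧ 0 < G.c m (G.p w false)))

theorem rest_bound {t m : ℕ} (b : Bool) (hm : 0 < m) (v : ℕ) (hv : 0 < G.c v t) :
    G.c 0 v ≤ (2 ^ ((G.rest t m (G.p m b)).filter (fun w => w ≤ v)).card * max 1 (G.c m v)
      + G.c m v) * G.c 0 (G.p m b) := by
  have hy := G.lt m b hm
  have hx := G.lt m (!b) hm
  set y := G.p m b with hydef
  have mono : ∀ u v : ℕ, u ≤ v → 2 ^ ((G.rest t m y).filter (fun w => w ≤ u)).card ≤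
      2 ^ ((G.rest t m y).filter (fun w => w ≤ v)).card := by
    intro u v huv
    apply Nat.pow_le_pow_right (by norm_num)
    apply Finset.card_le_card
    intro w hw
    rw [Finset.mem_filter] at hw ⊢
    exact ⟨hw.1, by omega⟩
  have smono : ∀ u v : ℕ, u < v → v ∈ G.rest t m y →
      2 * 2 ^ ((G.rest t m y).filter (fun w => w ≤ u)).card ≤
      2 ^ ((G.rest t m y).filter (fun w => w ≤ v)).card := by
    intro u v huv hR
    rw [← pow_succ']
    apply Nat.pow_le_pow_right (by norm_num)
    apply Finset.card_lt_card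
    rw [Finset.ssubset_iff_of_subset]
    · exact ⟨v, Finset.mem_filter.2 ⟨hR, le_rfl⟩, fun h => by
        have := (Finset.mem_filter.1 h).2; omega⟩
    · intro w hw
      rw [Finset.mem_filter] at hw ⊢
      exact ⟨hw.1, by omega⟩
  induction v using Nat.strong_induction_on with
  | _ v ih =>
    set P := 2 ^ ((G.rest t m y).filter (fun w => w ≤ v)).card with hP
    have hP1 : 1 ≤ P := Nat.one_le_two_pow
    by_cases hA : 0 < G.c v y
    · have h1 := G.c_mul_le 0 v y
      have h2 : 1 ≤ P * max 1 (G.c m v) + G.c m v := by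
        have : 1 ≤ max 1 (G.c m v) := le_max_left _ _
        nlinarith
      calc G.c 0 v ≤ G.c 0 v * G.c v y := Nat.le_mul_of_pos_right _ hA
        _ ≤ 1 * G.c 0 y := by omega
        _ ≤ _ := by gcongr
    · have h0 : 0 < v := by
        rcases Nat.eq_zero_or_pos v with h0 | h0
        · subst h0; exact absurd (G.c_zero_pos y) hA
        · exact h0
      by_cases hvm : v = m
      · subst hvm
        have h1 := ih _ hx (G.c_pos_trans (G.c_par_pos _ h0) hv)
        rw [G.c_of_lt hx] at h1
        have h2 := mono _ _ hx.le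
        rw [G.c_step' b (by omega) h0, c_self, ← hydef]
        simp only [max_self, mul_one, zero_le, max_eq_left, add_zero] at h1 ⊢
        nlinarith
      · have l1 := G.lt v true h0
        have l2 := G.lt v false h0
        have e1 := ih _ l1 (G.c_pos_trans (G.c_par_pos _ h0) hv)
        have e2 := ih _ l2 (G.c_pos_trans (G.c_par_pos _ h0) hv)
        rw [G.c_step (u := 0) (by omega) h0, G.c_step hvm h0]
        by_cases hB : 0 < G.c m (G.p v true) ∧ 0 < G.c m (G.p v false)
        · have m1 := mono _ _ l1.le
          have m2 := mono _ _ l2.le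
          rw [max_eq_right hB.1] at e1
          rw [max_eq_right hB.2] at e2
          rw [max_eq_right (by omega)]
          refine le_trans (add_le_add e1 e2) ?_
          rw [← add_mul]
          apply Nat.mul_le_mul_right
          nlinarith
        · have hR : v ∈ G.rest t m y := by
            unfold rest
            rw [Finset.mem_filter, mem_U]
            exact ⟨⟨h0, hv⟩, hvm, by omega, hB⟩
          have m1 := smono _ _ l1 hR
          have m2 := smono _ _ l2 hR
          refine le_trans (add_le_add e1 e2) ?_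
          rw [← add_mul]
          apply Nat.mul_le_mul_right
          have k1 : max 1 (G.c m (G.p v true)) ≤
              max 1 (G.c m (G.p v true) + G.c m (G.p v false)) := max_le_max le_rfl (by omega)
          have k2 : max 1 (G.c m (G.p v false)) ≤
              max 1 (G.c m (G.p v true) + G.c m (G.p v false)) := max_le_max le_rfl (by omega)
          have q1 := Nat.mul_le_mul m1 k1
          have q2 := Nat.mul_le_mul m2 k2
          rw [← hP, mul_assoc] at q1 q2
          omega

theorem split {t m : ℕ} (b : Bool) (hU : m ∈ G.U t) :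
    ∃ (G2 : SLP) (t2 D : ℕ), G2.c 0 t2 = G.flow t m b ∧ G2.len t2 + D + 1 ≤ G.len t ∧
      G.c 0 t ≤ (2 ^ D + 1) * G.flow t m b := by
  obtain ⟨hm, hmt⟩ := G.mem_U.1 hU
  have hy := G.lt m b hm
  have hyt : 0 < G.c (G.p m b) t := G.c_pos_trans (G.c_par_pos b hm) hmt
  refine ⟨G.keep m _ hy, G.psi m (G.p m b) t, (G.rest t m (G.p m b)).card, ?_, ?_, ?_⟩
  · rw [keep_val, if_pos hmt]; unfold flow; ring
  · unfold len
    have hsub : (G.keep m _ hy).U (G.psi m (G.p m b) t) ∪ G.rest t m (G.p m b) ⊆
        (G.U t).erase m := by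
      intro w hw
      rw [Finset.mem_union] at hw
      rw [Finset.mem_erase]
      rcases hw with hw | hw
      · rw [mem_U] at hw
        have := G.keep_used hy hyt t (Or.inl hmt) (by rw [c_self]; omega) w hw.2
        refine ⟨?_, G.mem_U.2 ⟨hw.1, this.1⟩⟩
        rcases this.2 with h | h
        · have := G.le_of_c_pos h; omega
        · omega
      · unfold rest at hw
        rw [Finset.mem_filter] at hw
        exact ⟨hw.2.1, hw.1⟩
    have hdis : Disjoint ((G.keep m _ hy).U (G.psi m (G.p m b) t)) (G.rest t m (G.p m b)) := by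
      rw [Finset.disjoint_left]
      intro w hw hw2
      rw [mem_U] at hw
      have := G.keep_used hy hyt t (Or.inl hmt) (by rw [c_self]; omega) w hw.2
      unfold rest at hw2
      rw [Finset.mem_filter] at hw2
      rcases this.2 with h | h
      · omega
      · exact hw2.2.2.2 ⟨h.1, h.2.1⟩
    have h1 := Finset.card_le_card hsub
    rw [Finset.card_union_of_disjoint hdis, Finset.card_erase_of_mem hU] at h1
    have h2 : 0 < (G.U t).card := Finset.card_pos.2 ⟨m, hU⟩
    omega
  · have h1 := G.rest_bound b hm t (t := t) (by rw [c_self]; omega)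
    rw [max_eq_right hmt] at h1
    have h2 : 2 ^ ((G.rest t m (G.p m b)).filter (fun w => w ≤ t)).card ≤
        2 ^ (G.rest t m (G.p m b)).card :=
      Nat.pow_le_pow_right (by norm_num) (Finset.card_filter_le _ _)
    unfold flow
    calc G.c 0 t ≤ _ := h1
      _ ≤ (2 ^ (G.rest t m (G.p m b)).card * G.c m t + G.c m t) * G.c 0 (G.p m b) := by gcongr
      _ = _ := by ring

end SLP

end Pool.Agent.P.MP_10b087_nt
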