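import Pool.Agent.P.MP_10b087_nt.Split

set_option autoImplicit false

namespace Pool.Agent.P.MP_10b087_nt

namespace SLP

variable (G : SLP)

theorem two_q_le {t m : ℕ} {b : Bool} (hU : m ∈ G.U t)
    (hmin : ∀ m' ∈ G.U t, ∀ b', G.flow t m b ≤ G.flow t m' b')
    (h3 : 3 * G.flow t m b ≤ G.c 0 t) : 2 * G.c m t ≤ G.c (G.p m b) t := by
  obtain ⟨hm, hmt⟩ := G.mem_U.1 hU
  rcases Nat.eq_zero_or_pos (G.p m b) with h0 | h0
  · unfold flow at h3
    rw [h0, c_self] at h3
    rw [h0]; omega
  · have hyU : G.p m b ∈ G.U t := G.mem_U.2 ⟨h0, G.c_pos_trans (G.c_par_pos b hm) hmt⟩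
    have h1 := hmin _ hyU true
    have h2 := hmin _ hyU false
    unfold flow at h1 h2
    have h4 := G.c_step (u := 0) (v := G.p m b) (by omega) h0
    have h5 := G.c_zero_pos (G.p m b)
    apply Nat.le_of_mul_le_mul_left _ h5
    calc G.c 0 (G.p m b) * (2 * G.c m t) = G.c 0 (G.p m b) * G.c m t + G.c 0 (G.p m b) * G.c m t := by
          ring
      _ ≤ _ := add_le_add h1 h2
      _ = _ := by rw [← add_mul, ← h4]

theorem con_alive {t m : ℕ} {b : Bool} (hm : 0 < m) (h2 : 2 * G.c m t ≤ G.c (G.p m b) t)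
    (hmt : 0 < G.c m t) {u : ℕ} (hu : u ≠ m) (hut : 0 < G.c u t) :
    0 < (G.con m b hm).c u (phi m (G.p m (!b)) t) := by
  have h1 := G.con_c b hm hu t
  have h3 := G.c_mul_le u (G.p m b) t
  rcases Nat.eq_zero_or_pos (G.c u (G.p m b)) with h0 | h0
  · rw [h0] at h1; omega
  · have h4 : G.c u (G.p m b) * (2 * G.c m t) ≤ G.c u (G.p m b) * G.c (G.p m b) t :=
      Nat.mul_le_mul_left _ h2
    have h5 : 0 < G.c u (G.p m b) * G.c m t := Nat.mul_pos h0 hmt
    nlinarith

theorem con_len_eq {t m : ℕ} {b : Bool} (hm : 0 < m) (h2 : 2 * G.c m t ≤ G.c (G.p m b) t)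
    (hU : m ∈ G.U t) :
    (G.con m b hm).len (phi m (G.p m (!b)) t) + 1 = G.len t := by
  have hmt := (G.mem_U.1 hU).2
  have h1 : (G.con m b hm).U (phi m (G.p m (!b)) t) = (G.U t).erase m := by
    apply Finset.Subset.antisymm (G.con_U_sub b hm t)
    intro u hu
    rw [Finset.mem_erase, mem_U] at hu
    exact (mem_U _).2 ⟨hu.2.1, G.con_alive hm h2 hmt hu.1 hu.2.2⟩
  unfold len
  rw [h1, Finset.card_erase_of_mem hU]
  have h2 : 0 < (G.U t).card := Finset.card_pos.2 ⟨m, hU⟩
  omega

theorem new_series {t m : ℕ} {b : Bool} (hm : 0 < m) (h2 : 2 * G.c m t ≤ G.c (G.p m b) t)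
    (hmt : 0 < G.c m t) {z : ℕ} (hz : z ∈ (G.con m b hm).S (phi m (G.p m (!b)) t))
    (hzS : z ∉ G.S t) :
    (G.p m b < z ∧ z ≤ G.p m (!b)) ∨
      (m < z ∧ G.Cut t z ∧ ∃ β, G.p z β = m ∧ G.p z (!β) = G.p m (!b)) := by
  have hx := G.lt m (!b) hm
  have hy := G.lt m b hm
  have hzU := G.con_U_sub b hm t (S_sub _ _ hz)
  rw [Finset.mem_erase, mem_U] at hzU
  obtain ⟨hzm, hz0, hzt⟩ := hzU
  obtain ⟨-, hz1, hz2, hz3⟩ := (mem_S _).1 hz
  rw [con_p, con_p] at hz2
  have hcut : ∀ v, z < v → v ≠ m → 0 < G.c v t → ∀ β, z ≤ phi m (G.p m (!b)) (G.p v β) :=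
    fun v hv hvm hvt β => hz3 v hv (G.con_alive hm h2 hmt hvm hvt) β
  rcases lt_or_gt_of_ne hzm with hlt | hgt
  · left
    have hzx : z ≤ G.p m (!b) := by
      by_cases htm : t = m
      · rw [htm, phi_self] at hz1
        exact le_of_c_pos _ hz1
      · obtain ⟨w, β, hw0, hw1, hw2⟩ := G.exists_child hmt htm
        have hw3 := G.lt w β hw0
        have := hcut w (by omega) (by omega) hw2 β
        rwa [hw1, phi_self] at this
    refine ⟨?_, hzx⟩
    by_contra hyz
    apply hzS
    have l1 := G.lt z true hz0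
    have l2 := G.lt z false hz0
    rw [phi_of_ne (by omega), phi_of_ne (by omega)] at hz2
    refine G.mem_S.2 ⟨hz0, hzt, hz2, ?_⟩
    intro v hv hvt β
    by_cases hvm : v = m
    · subst hvm
      by_cases hβ : β = b
      · subst hβ; omega
      · have : β = !b := by cases β <;> cases b <;> simp_all
        subst this; exact hzx
    · exact le_trans (hcut v hv hvm hvt β) (phi_le hx _)
  · right
    have hc : G.Cut t z := fun v hv hvt β =>
      le_trans (hcut v hv (by omega) hvt β) (phi_le hx _)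
    refine ⟨hgt, hc, ?_⟩
    have hne : G.p z true ≠ G.p z false := fun e => hzS (G.mem_S.2 ⟨hz0, hzt, e, hc⟩)
    by_cases e1 : G.p z true = m
    · refine ⟨true, e1, ?_⟩
      rw [e1, phi_self, phi_of_ne (by omega)] at hz2
      exact hz2.symm
    · by_cases e2 : G.p z false = m
      · refine ⟨false, e2, ?_⟩
        rw [e2, phi_self, phi_of_ne e1] at hz2
        exact hz2
      · rw [phi_of_ne e1, phi_of_ne e2] at hz2
        exact absurd hz2 hne

theorem step_finish {t m w : ℕ} {b : Bool} (hm : 0 < m)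
    (hmin : ∀ m' ∈ G.U t, ∀ b', G.flow t m b ≤ G.flow t m' b')
    (hc : 2 ^ w * G.c m t ≤ (G.con m b hm).c (G.p m b) (phi m (G.p m (!b)) t))
    {m' : ℕ} (hm' : m' ∈ (G.con m b hm).U (phi m (G.p m (!b)) t)) (b' : Bool)
    (hd : 2 ^ w * (G.c 0 (G.p m b) * G.c m (G.p m' b')) ≤
      (G.con m b hm).c 0 (phi m (G.p m (!b)) (G.p m' b'))) :
    2 ^ w * G.flow t m b ≤ (2 ^ w + 1) * (G.con m b hm).flow (phi m (G.p m (!b)) t) m' b' := by
  have hy := G.lt m b hm
  have hU := G.con_U_sub b hm t hm'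
  rw [Finset.mem_erase] at hU
  have h1 := hmin m' hU.2 b'
  have hm0 := (G.mem_U.1 hU.2).1
  have e1 := G.con_c b hm (u := 0) (by omega) (G.p m' b')
  have e2 := G.con_c b hm hU.1 t
  have h2 : 2 ^ w * G.flow t m b ≤ 2 ^ w * G.flow t m' b' := Nat.mul_le_mul_left _ h1
  refine le_trans h2 ?_
  unfold flow
  rw [con_p, ← e1, ← e2]
  set A := (G.con m b hm).c 0 (phi m (G.p m (!b)) (G.p m' b'))
  set Q := (G.con m b hm).c m' (phi m (G.p m (!b)) t) with hQ
  rcases Nat.eq_zero_or_pos (G.c m' (G.p m b)) with h0 | h0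
  · rw [h0]
    have := Nat.mul_le_mul_right Q hd
    nlinarith
  · have l1 := G.le_of_c_pos h0
    have l2 := G.lt m' b' hm0
    rw [G.c_of_lt (u := m) (by omega)]
    have h3 := (G.con m b hm).c_mul_le m' (G.p m b) (phi m (G.p m (!b)) t)
    rw [G.con_c_low b hm hy, ← hQ] at h3
    have h4 : G.c m' (G.p m b) * (2 ^ w * G.c m t) ≤ Q :=
      le_trans (Nat.mul_le_mul_left _ hc) h3
    have := Nat.mul_le_mul_left A h4
    nlinarith

theorem step {t m : ℕ} {b : Bool} (hm : 0 < m) (hU : m ∈ G.U t)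
    (hmin : ∀ m' ∈ G.U t, ∀ b', G.flow t m b ≤ G.flow t m' b')
    (h3 : 3 * G.flow t m b ≤ G.c 0 t) :
    ∃ w, ((G.con m b hm).S (phi m (G.p m (!b)) t)).card ≤ (G.S t).card + w ∧
      2 ^ w * G.flow t m b ≤ (G.con m b hm).c 0 (phi m (G.p m (!b)) t) ∧
      ∀ m' ∈ (G.con m b hm).U (phi m (G.p m (!b)) t),
        m' ∉ (G.con m b hm).S (phi m (G.p m (!b)) t) → ∀ b',
        2 ^ w * G.flow t m b ≤ (2 ^ w + 1) * (G.con m b hm).flow (phi m (G.p m (!b)) t) m' b' := by
  have h2 := G.two_q_le hU hmin h3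
  have hmt := (G.mem_U.1 hU).2
  have hx := G.lt m (!b) hm
  have hy := G.lt m b hm
  have hnew := fun z => G.new_series hm h2 hmt (z := z)
  have halive := fun u => G.con_alive hm h2 hmt (u := u)
  have hcon := fun u (hu : u ≠ m) => G.con_c b hm hu
  have hlow := fun u v => G.con_c_low b hm (u := u) (v := v)
  have hfin := fun w => G.step_finish (t := t) (w := w) hm hmin
  have hsub := G.con_U_sub b hm t
  have hp := G.con_p m b hm
  have hstep := G.c_step' (u := 0) b (by omega : m ≠ 0) hm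
  have hxm := G.c_par_le (!b) hm t
  have hym := G.c_par_le b hm t
  have hyx : G.c 0 (G.p m b) ≤ G.c 0 (G.p m (!b)) := by
    have := hmin m hU (!b)
    unfold flow at this
    exact Nat.le_of_mul_le_mul_right this hmt
  unfold flow at hfin ⊢
  have hcont := fun u (hu : u ≠ m) => G.con_c b hm hu t
  clear hmin h3
  generalize G.con m b hm = G' at *
  generalize G.p m (!b) = x at *
  generalize G.p m b = y at *
  generalize phi m x t = t' at *
  have htt : 0 < G'.c t' t' := by rw [c_self]; omega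
  have hyt : 0 < G'.c y t' := halive y (by omega) (by omega)
  have hxt : 0 < G'.c x t' := halive x (by omega) (by omega)
  have hB1 : ∀ w, 2 ^ w * G.c m t ≤ G'.c y t' → 2 ^ w * (G.c 0 y * G.c m t) ≤ G'.c 0 t' := by
    intro w hw
    have h4 := G'.c_mul_le 0 y t'
    rw [hlow 0 y hy] at h4
    have := Nat.mul_le_mul_left (G.c 0 y) hw
    nlinarith
  have hyx2 : 0 < G'.cnt t' y x → 0 < G'.c y x ∧ y < x := by
    intro h
    obtain ⟨z, hz⟩ := Finset.card_pos.1 h
    rw [Finset.mem_filter] at hz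
    obtain ⟨hz0, hz1, -, hz3⟩ := (mem_S _).1 hz.1
    have e1 := hz3.c_eq (u := y) hz.2.1.le t' (le_of_c_pos _ hz1) htt
    have e2 := hz3.c_eq (u := 0) (by omega) x hz.2.2 hxt
    have p1 : 0 < G'.c y z := by rw [e1] at hyt; exact Nat.pos_of_mul_pos_right hyt
    have p2 : 0 < G'.c z x := by
      have := G'.c_zero_pos x
      rw [e2] at this; exact Nat.pos_of_mul_pos_left this
    exact ⟨G'.c_pos_trans p1 p2, by omega⟩
  have hb : 2 ^ G'.cnt t' y x * G.c 0 y ≤ G.c 0 x := by
    rcases Nat.eq_zero_or_pos (G'.cnt t' y x) with h0 | h0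
    · rw [h0]; simpa using hyx
    · have h4 := G'.two_pow_cnt_le x hxt (hyx2 h0).1
      have h5 := G'.c_mul_le 0 y x
      rw [hlow 0 y hy, hlow 0 x hx] at h5
      have := Nat.mul_le_mul_left (G.c 0 y) h4
      nlinarith
  have hcard : ∀ T : Finset ℕ, (∀ z ∈ G'.S t', z ∉ G.S t → z ∈ T) →
      (G'.S t').card ≤ (G.S t).card + T.card := by
    intro T hT
    refine le_trans (Finset.card_le_card (t := G.S t ∪ T) ?_) (Finset.card_union_le _ _)
    intro z hz
    rw [Finset.mem_union]
    by_cases h : z ∈ G.S t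
    · exact Or.inl h
    · exact Or.inr (hT z hz h)
  by_cases hex : ∃ z ∈ G'.S t', m < z ∧ G.Cut t z ∧ ∃ β, G.p z β = m ∧ G.p z (!β) = x
  · obtain ⟨z, hzS, hmz, hzc, β, hβ1, hβ2⟩ := hex
    obtain ⟨hz0, hz1, -, hz3⟩ := (mem_S _).1 hzS
    have hzt : 0 < G.c z t := by have := hcont z (by omega); omega
    have htt0 : 0 < G.c t t := by rw [c_self]; omega
    have cmz : G.c m z = 1 := by
      rw [G.c_step' β (by omega) hz0, hβ1, hβ2, c_self, G.c_of_lt hx]
    have hc : 2 ^ (G'.cnt t' y x + 1) * G.c m t ≤ G'.c y t' := by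
      have e1 := hzc.c_eq (u := m) hmz.le t (le_of_c_pos _ hzt) htt0
      have e2 := hcont z (by omega)
      rw [G.c_of_lt (u := z) (by omega)] at e2
      have e3 := hz3.c_eq (u := y) (by omega) t' (le_of_c_pos _ hz1) htt
      have e4 : G'.c y z = 2 * G'.c y x := by
        rw [G'.c_step' β (by omega) hz0, hp, hp, hβ1, hβ2, phi_self, phi_of_ne (by omega)]
        omega
      have p1 : 0 < G'.c y x := by
        rw [e3, e4] at hyt
        have := Nat.pos_of_mul_pos_right hyt
        omega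
      have h4 := G'.two_pow_cnt_le x hxt p1
      rw [e3, e4, e1, cmz, pow_succ]
      have e5 : G'.c z t' = G.c z t := by omega
      rw [e5]
      have := Nat.mul_le_mul_right (G.c z t) h4
      nlinarith
    refine ⟨G'.cnt t' y x + 1, ?_, hB1 _ hc, ?_⟩
    · refine le_trans (hcard (insert z ((G'.S t').filter (fun z => y < z ∧ z ≤ x))) ?_) ?_
      · intro z2 hz2 hz2S
        rw [Finset.mem_insert, Finset.mem_filter]
        rcases hnew z2 hz2 hz2S with h | ⟨h4, -, β2, h5, h6⟩
        · exact Or.inr ⟨hz2, h⟩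
        · left
          obtain ⟨-, hz21, -, hz23⟩ := (mem_S _).1 hz2
          by_contra hne
          rcases lt_or_gt_of_ne hne with h7 | h7
          · have := hz23 z h7 hz1 β
            rw [hp, hβ1, phi_self] at this
            omega
          · have := hz3 z2 h7 hz21 β2
            rw [hp, h5, phi_self] at this
            omega
      · have := Finset.card_insert_le z ((G'.S t').filter (fun z => y < z ∧ z ≤ x))
        unfold cnt
        omega
    · intro m' hm' hm'S b'
      apply hfin _ hc hm' b'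
      rcases Nat.eq_zero_or_pos (G.c m (G.p m' b')) with h0 | h0
      · rw [h0]; simp
      · have hm2 := hsub hm'
        rw [Finset.mem_erase, mem_U] at hm2
        obtain ⟨-, hm0, hm't⟩ := hm2
        have l1 := G.le_of_c_pos h0
        have l2 := G.lt m' b' hm0
        have hne : m' ≠ z := by rintro rfl; exact hm'S hzS
        rcases lt_or_gt_of_ne hne with h7 | h7
        · exfalso
          have e1 := hzc.c_eq (u := m') h7.le t (le_of_c_pos _ hzt) htt0
          rw [G.c_step' (u := m') β (by omega) hz0, hβ1, hβ2,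
            G.c_of_lt (u := m') (v := m) (by omega),
            G.c_of_lt (u := m') (v := x) (by omega)] at e1
          omega
        · have l3 := hzc m' h7 hm't b'
          have hπ : 0 < G.c (G.p m' b') t := G.c_pos_trans (G.c_par_pos b' hm0) hm't
          have e1 := hzc.c_eq (u := m) hmz.le _ l3 hπ
          have e2 := hzc.c_eq (u := 0) (by omega) _ l3 hπ
          have e3 := hcon 0 (by omega) (G.p m' b')
          rw [G.c_step' (u := 0) β (by omega) hz0, hβ1, hβ2, hstep] at e2
          rw [cmz, one_mul] at e1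
          rw [e1] at e3 ⊢
          rw [pow_succ]
          have := Nat.mul_le_mul_right (G.c z (G.p m' b')) hb
          nlinarith
  · have hc : 2 ^ (G'.cnt t' y x) * G.c m t ≤ G'.c y t' := by
      rcases Nat.eq_zero_or_pos (G'.cnt t' y x) with h0 | h0
      · have e := hcont y (by omega)
        rw [c_self] at e
        rw [h0]; omega
      · obtain ⟨p1, p2⟩ := hyx2 h0
        have h4 := G'.two_pow_cnt_le x hxt p1
        have h5 := G'.c_mul_le y x t'
        have e := hcont x (by omega)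
        rw [G.c_of_lt p2] at e
        have h6 : G.c m t ≤ G'.c x t' := by omega
        exact le_trans (Nat.mul_le_mul h4 h6) h5
    refine ⟨G'.cnt t' y x, ?_, hB1 _ hc, ?_⟩
    · apply hcard
      intro z hz hzS
      rw [Finset.mem_filter]
      rcases hnew z hz hzS with h | h
      · exact ⟨hz, h⟩
      · exact absurd ⟨z, hz, h⟩ hex
    · intro m' hm' _ b'
      apply hfin _ hc hm' b'
      have e3 := hcon 0 (by omega) (G.p m' b')
      have h4 := G.c_mul_le 0 m (G.p m' b')
      rw [hstep] at h4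
      have := Nat.mul_le_mul_right (G.c m (G.p m' b')) hb
      nlinarith

end SLP

end Pool.Agent.P.MP_10b087_nt
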