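import Mathlib

set_option autoImplicit false

namespace Pool.Agent.P.MP_10b087_nt

/-- binary weight -/
def nu (n : ℕ) : ℕ := (Nat.digits 2 n).sum

theorem nu_rec (n : ℕ) : nu n = n % 2 + nu (n / 2) := by
  unfold nu
  rcases Nat.eq_zero_or_pos n with h | h
  · subst h; simp
  · rw [Nat.digits_def' (by norm_num) h]; simp

theorem nu_zero : nu 0 = 0 := by simp [nu]

theorem nu_one : nu 1 = 1 := by rw [nu_rec]; simp [nu_zero]

theorem nu_two_mul (n : ℕ) : nu (2 * n) = nu n := by
  rw [nu_rec (2 * n)]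
  have h1 : 2 * n % 2 = 0 := by omega
  have h2 : 2 * n / 2 = n := by omega
  rw [h1, h2]; simp

theorem nu_two_mul_add_one (n : ℕ) : nu (2 * n + 1) = nu n + 1 := by
  rw [nu_rec (2 * n + 1)]
  have h1 : (2 * n + 1) % 2 = 1 := by omega
  have h2 : (2 * n + 1) / 2 = n := by omega
  rw [h1, h2]; omega

theorem nu_pow (k : ℕ) : nu (2 ^ k) = 1 := by
  induction k with
  | zero => simpa using nu_one
  | succ k ih => rw [pow_succ, mul_comm, nu_two_mul, ih]

theorem nu_pos (n : ℕ) (h : 0 < n) : 0 < nu n := by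
  induction n using Nat.strong_induction_on with
  | _ n ih =>
    rw [nu_rec]
    rcases Nat.eq_zero_or_pos (n / 2) with h2 | h2
    · omega
    · have := ih (n / 2) (by omega) h2
      omega

theorem nu_add_aux (s : ℕ) : ∀ a b c : ℕ, a + b = s → c ≤ 1 → nu (a + b + c) ≤ nu a + nu b + c := by
  induction s using Nat.strong_induction_on with
  | _ s ih =>
    intro a b c hs hc
    rcases Nat.eq_zero_or_pos s with h0 | h0
    · have ha : a = 0 := by omega
      have hb : b = 0 := by omega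
      subst ha; subst hb
      have : c = 0 ∨ c = 1 := by omega
      rcases this with rfl | rfl
      · simp [nu_zero]
      · simp [nu_one]
    · have h := ih (a / 2 + b / 2) (by omega) (a / 2) (b / 2) ((a % 2 + b % 2 + c) / 2) rfl (by omega)
      have e : (a + b + c) / 2 = a / 2 + b / 2 + (a % 2 + b % 2 + c) / 2 := by omega
      rw [nu_rec (a + b + c), e, nu_rec a, nu_rec b]
      omega

theorem nu_add (a b : ℕ) : nu (a + b) ≤ nu a + nu b := by
  simpa using nu_add_aux (a + b) a b 0 rfl (by omega)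

theorem two_pow_nu_le (n : ℕ) : 2 ^ nu n ≤ n + 1 := by
  induction n using Nat.strong_induction_on with
  | _ n ih =>
    rcases Nat.eq_zero_or_pos n with h | h
    · subst h; simp [nu_zero]
    · have h2 := ih (n / 2) (by omega)
      rw [nu_rec]
      have : n % 2 = 0 ∨ n % 2 = 1 := by omega
      rcases this with h3 | h3
      · rw [h3, zero_add]; omega
      · rw [h3, add_comm, pow_succ]; omega

theorem nu_lt_of_lt (E M : ℕ) (h : E + 1 < 2 ^ M) : nu E < M := by
  have := two_pow_nu_le E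
  exact (Nat.pow_lt_pow_iff_right (by norm_num : 1 < 2)).1 (lt_of_le_of_lt this h)

theorem gap_aux (b : ℕ) : ∀ n g : ℕ, 0 < g → n + g = 2 ^ b → 2 ^ b ≤ 2 ^ nu n * g := by
  induction b with
  | zero =>
    intro n g hg h
    have : 0 < 2 ^ nu n * g := by positivity
    rw [pow_zero]; exact this
  | succ b ih =>
    intro n g hg h
    rw [pow_succ] at h
    have h2 := ih (n / 2) ((g + 1) / 2) (by omega) (by omega)
    rw [nu_rec, pow_succ]
    have : n % 2 = 0 ∨ n % 2 = 1 := by omega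
    rcases this with h3 | h3
    · rw [h3, zero_add]
      have e : g = 2 * ((g + 1) / 2) := by omega
      calc 2 ^ b * 2 ≤ 2 ^ nu (n / 2) * ((g + 1) / 2) * 2 := by omega
        _ = 2 ^ nu (n / 2) * (2 * ((g + 1) / 2)) := by ring
        _ = 2 ^ nu (n / 2) * g := by rw [← e]
    · rw [h3, add_comm, pow_succ]
      have e : (g + 1) / 2 ≤ g := by omega
      calc 2 ^ b * 2 ≤ 2 ^ nu (n / 2) * ((g + 1) / 2) * 2 := by omega
        _ ≤ 2 ^ nu (n / 2) * g * 2 := by gcongr
        _ = 2 ^ nu (n / 2) * 2 * g := by ring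

/-- the inequality of the conjecture, for a chain of length `l` with value `n` -/
def Good (l n : ℕ) : Prop := nu n * 2 ^ Nat.log 2 n ≤ 2 ^ l

theorem Good.mono {l l' n : ℕ} (h : Good l n) (hl : l ≤ l') : Good l' n :=
  le_trans h (Nat.pow_le_pow_right (by norm_num) hl)

theorem Good.log_le {l n : ℕ} (h : Good l n) (hn : 0 < n) : Nat.log 2 n ≤ l := by
  have h1 := nu_pos n hn
  have h2 : 2 ^ Nat.log 2 n ≤ 2 ^ l := le_trans (Nat.le_mul_of_pos_left _ h1) h
  exact (Nat.pow_le_pow_iff_right (by norm_num : 1 < 2)).1 h2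

theorem Good.nu_le {l n : ℕ} (h : Good l n) (hn : 0 < n) : nu n ≤ 2 ^ (l - Nat.log 2 n) := by
  have h1 := h.log_le hn
  have h2 : 2 ^ l = 2 ^ (l - Nat.log 2 n) * 2 ^ Nat.log 2 n := by
    rw [← pow_add]; congr 1; omega
  unfold Good at h
  rw [h2] at h
  exact Nat.le_of_mul_le_mul_right h (by positivity)

theorem Good.gap {l n g b e : ℕ} (h : Good l n) (hn : 0 < n) (hg : 0 < g) (hb : n + g = 2 ^ b)
    (he : b + e = l + 1) : 2 ^ b ≤ 2 ^ (2 ^ e) * g := by
  have h1 : Nat.log 2 n < b := Nat.log_lt_of_lt_pow (by omega) (by omega)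
  by_cases h2 : Nat.log 2 n + 1 = b
  · have h3 := h.nu_le hn
    have h4 : l - Nat.log 2 n = e := by omega
    rw [h4] at h3
    calc 2 ^ b ≤ 2 ^ nu n * g := gap_aux b n g hg hb
      _ ≤ 2 ^ (2 ^ e) * g := by gcongr; norm_num
  · have h3 : n < 2 ^ (Nat.log 2 n + 1) := Nat.lt_pow_succ_log_self (by norm_num) n
    have h4 : 2 ^ (Nat.log 2 n + 1 + 1) ≤ 2 ^ b := Nat.pow_le_pow_right (by norm_num) (by omega)
    rw [pow_succ] at h4
    have h5 : 2 ^ 1 ≤ 2 ^ (2 ^ e) := Nat.pow_le_pow_right (by norm_num) (Nat.one_le_two_pow)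
    calc 2 ^ b ≤ 2 ^ 1 * g := by omega
      _ ≤ 2 ^ (2 ^ e) * g := by gcongr

theorem Good.le_pow {l n : ℕ} (h : Good l n) (hn : 0 < n) : n ≤ 2 ^ l := by
  have h1 := h.log_le hn
  have h3 : n < 2 ^ (Nat.log 2 n + 1) := Nat.lt_pow_succ_log_self (by norm_num) n
  have h4 : 2 ^ (Nat.log 2 n + 1) ≤ 2 ^ (l + 1) := Nat.pow_le_pow_right (by norm_num) (by omega)
  have h5 := h.gap (g := 2 ^ (l + 1) - n) (b := l + 1) (e := 0) hn (by omega) (by omega) rfl
  rw [pow_succ] at h4 h5
  simp only [pow_zero, pow_one] at h5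
  omega

theorem good_pow (l : ℕ) : Good l (2 ^ l) := by
  unfold Good
  rw [nu_pow, Nat.log_pow (by norm_num)]; simp

theorem Good.double {l n : ℕ} (h : Good l n) (hn : 0 < n) : Good (l + 1) (2 * n) := by
  unfold Good at *
  rw [nu_two_mul, mul_comm 2 n, Nat.log_mul_base (by norm_num) (by omega), pow_succ, pow_succ]
  nlinarith

theorem good_of_small {l n lam s E : ℕ} (hn : n = 2 ^ lam + E) (hlog : Nat.log 2 n = lam)
    (hl : l = lam + s) (hE : E + 1 < 2 ^ (2 ^ s)) : Good l n := by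
  unfold Good
  have h1 := nu_lt_of_lt E _ hE
  have h2 := nu_add (2 ^ lam) E
  rw [nu_pow, ← hn] at h2
  rw [hlog, hl, pow_add, mul_comm]
  gcongr
  omega

theorem Good.final {l n : ℕ} (h : Good l n) (hn : 0 < n) :
    Nat.log 2 n + Nat.clog 2 (Nat.digits 2 n).sum ≤ l := by
  have h1 := h.log_le hn
  have h2 := h.nu_le hn
  have h3 : Nat.clog 2 (nu n) ≤ l - Nat.log 2 n := (Nat.clog_le_iff_le_pow (by norm_num)).2 h2
  unfold nu at h3
  omega

end Pool.Agent.P.MP_10b087_nt
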